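import Pool.Agent.MP_8be872_ag.H62.N4D
import Pool.Agent.MP_8be872_ag.H63.SpecA

/-! Module N4. -/

namespace Pool.Agent.MP_8be872_ag.H62

open Finset H38 H56 H63 MvPolynomial

variable {E O J : Type} [Fintype E] [Fintype O] [Fintype J] [DecidableEq E] [DecidableEq O]
  [DecidableEq J] {Al K M E0 : Gn E O J → Prop} {j₀ : J} {F : MvPolynomial (E ⊕ J) ℂ} {k : ℕ}
  {δ δ₀ δ₁ : Gn E O J → Op E O J} {cd : Gn E O J → ℤ}

theorem proj_cd (h : ∀ g, δ g ∈ words fun μ => ws cd μ = cd g + 1) (n : ℤ)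
    (y : Sp (E ⊕ J) (O ⊕ J)) :
    proj (fun μ => ws cd μ = n + 1) (vf δ y) = vf δ (proj (fun μ => ws cd μ = n) y) :=
  proj_comm (A := fun _ => True)
    (fun z hz => vf_mem h hz fun g μ ν h1 h2 => by
      have h3 := h1.2
      rw [ws_add, ws_single] at h3
      rw [ws_add]
      omega)
    (fun z hz => vf_mem h hz fun g μ ν h1 h2 => by
      have h3 := h1.2
      rw [ws_add, ws_single] at h3
      rw [ws_add]
      omega) (mem_true y)

theorem proj_ne (P : (Gn E O J → ℕ) → Prop) {P' : (Gn E O J → ℕ) → Prop}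
    {y : Sp (E ⊕ J) (O ⊕ J)} (hy : y ∈ mono P') (h : ∀ μ, P' μ → ¬ P μ) : proj P y = 0 :=
  proj_eq_zero (mono_le h hy)

theorem cnt_bd (hM : ∀ g, M g → cd g < 0) (hT : cd (tv j₀) = 0)
    (hA : ∀ g, Al g → g.isLeft → cd g ≤ 0) (n : ℤ) : ∃ N : ℕ,
    ∀ x ∈ mono (PW Al K M j₀ k) ⊓ mono fun μ => ws cd μ = n, x ∈ mono fun μ => cnt M μ < N := by
  classical
  refine ⟨(∑ g, |cd g| - n).toNat + 1, fun x hx => ?_⟩
  rw [← mono_and] at hx
  refine mono_le_odd (fun μ h1 h2 => ?_) hx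
  have h3 : (cnt M μ : ℤ) + ws cd μ ≤ ∑ g, |cd g| := by
    rw [cnt, ws, Nat.cast_sum, ← sum_add_distrib]
    refine sum_le_sum fun g _ => ?_
    rw [nsmul_eq_mul]
    have a1 := abs_nonneg (cd g)
    have a2 : (0 : ℤ) ≤ μ g := Nat.cast_nonneg _
    split_ifs with hg
    · have := hM g hg
      nlinarith
    · rw [Nat.cast_zero, zero_add]
      by_cases h0 : μ g = 0
      · rw [h0, Nat.cast_zero, zero_mul]
        exact a1
      rcases g with e | o
      · have a3 : cd (.inl e) ≤ 0 := by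
          rcases h2.1.1.1 _ h0 with h | h | h
          · exact hA _ h rfl
          · rw [h, hT]
          · cases h
        nlinarith
      · have a3 : μ (.inr o) = 1 := by have := h1 o; omega
        rw [a3, Nat.cast_one, one_mul]
        exact le_abs_self _
  have h4 := h2.2
  omega

theorem ex_top (hc : Ctx Al K M E0 F) (hA₀ : Adm Al K M E0 δ₀) (hA₁ : Adm Al K M E0 δ₁)
    (hM : ∀ g, M g → cd g < 0) (hT : cd (tv j₀) = 0) (hA : ∀ g, Al g → g.isLeft → cd g ≤ 0)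
    (hE : ∀ g, E0 g → cd g = 0)
    (c₀ : ∀ g, δ₀ g ∈ words fun μ => ws cd μ = cd g + 1)
    (c₁ : ∀ g, δ₁ g ∈ words fun μ => ws cd μ = cd g + 1)
    (d₀ : ∀ j, ∀ y ∈ mono fun μ => cnt M μ = j, vf δ₀ y ∈ mono fun μ => cnt M μ = j)
    (d₁ : ∀ j, ∀ y ∈ mono fun μ => cnt M μ = j, vf δ₁ y - vf δ₀ y ∈ mono fun μ => j < cnt M μ)
    (hsq : ∀ y, vf δ₁ (vf δ₁ y) ∈ mono (has K))
    (hex : Ex (vf δ₀) (mono (PW Al K M j₀ k)) (mono (PW Al K M j₀ k)) (BB K j₀ F)) :
    Ex (vf δ₁) (mono (PW Al K M j₀ k)) (mono (PW Al K M j₀ k)) (BB K j₀ F) := by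
  classical
  have pB : ∀ n : ℤ, ∀ y ∈ BB K j₀ F, proj (fun μ => ws cd μ = n) y ∈ BB K j₀ F := fun n y hy =>
    proj_BB hc (fun μ ν hν => by
      rw [ws_add, ws_add, ws_single, ws_sup hE hν, hT, add_zero, add_zero]) hy
  have key : ∀ n : ℤ, Ex (vf δ₁) (mono (PW Al K M j₀ k) ⊓ mono fun μ => ws cd μ = n)
      (mono (PW Al K M j₀ k) ⊓ mono fun μ => ws cd μ = n + 1) (BB K j₀ F) := by
    intro n
    obtain ⟨N₀, hN₀⟩ := cnt_bd (K := K) (k := k) hM hT hA n
    obtain ⟨N₁, hN₁⟩ := cnt_bd (K := K) (k := k) hM hT hA (n + 1)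
    refine ex_of_graded (vf δ₀) (fun j => proj fun μ => cnt M μ = j) N₁
      (fun x hx => by rw [sum_proj (hN₁ x hx), sub_self]; exact zero_mem _)
      (fun x hx => ⟨N₀, by rw [sum_proj (hN₀ x hx), sub_self]; exact zero_mem _⟩)
      (fun j x hx => ⟨proj_mem_of hx.1, proj_mem_of hx.2⟩)
      (fun j x hx => ⟨proj_mem_of hx.1, proj_mem_of hx.2⟩)
      (fun j x hx => proj_BB hc (fun μ ν hν => ?_) hx) (fun i j x => ?_)
      (fun x hx => ⟨hA₁.memW hc.alE hx.1, ?_⟩) (fun x _ hx => hA₁.memB hc hx)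
      (fun x _ => Submodule.mem_sup_right (hsq x)) (fun i j x _ => ?_) (fun i j hij x _ => ?_)
      (fun x _ hx => hA₀.memB hc hx) fun x hx hD => ?_
    · rw [cnt_add, cnt_add, cnt_single, cnt_sup (fun g hg => (hc.e0 g hg).2.2) hν,
        if_neg fun h => hc.alT _ (hc.mAl _ h).1, add_zero, add_zero]
    · have b := proj_mem (P := fun μ => cnt M μ = j) x
      by_cases h : i = j
      · rw [if_pos h, h, proj_eq_self b]
      · rw [if_neg h]
        exact proj_ne _ b fun μ h1 h2 => h (h2.symm.trans h1)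
    · have h := proj_cd c₁ n x
      rw [proj_eq_self (P := fun μ => ws cd μ = n) hx.2] at h
      rw [← h]
      exact proj_mem (P := fun μ => ws cd μ = n + 1) _
    · have h := d₀ j _ (proj_mem x)
      by_cases hij : i = j
      · rw [if_pos hij, hij, proj_eq_self h, sub_self]
        exact zero_mem _
      · rw [if_neg hij, proj_ne (fun μ => cnt M μ = i) h fun μ h1 h2 => hij (h2.symm.trans h1),
          sub_self]
        exact zero_mem _
    · rw [proj_ne (fun μ => cnt M μ = i) (d₁ j _ (proj_mem x)) fun μ h1 h2 => by omega]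
      exact zero_mem _
    · obtain ⟨y, hy, h⟩ := hex x hx.1 hD
      refine ⟨proj (fun μ => ws cd μ = n) y, ⟨proj_mem_of hy, proj_mem y⟩, ?_⟩
      have h1 := pB (n + 1) _ h
      rwa [map_sub, proj_eq_self hx.2, proj_cd c₀] at h1
  intro x hx hD
  obtain ⟨s, hs, -⟩ := exists_sum_proj (ws cd) x
  have h : x ∈ (mono (PW Al K M j₀ k)).map (vf δ₁) ⊔ BB K j₀ F := by
    rw [hs]
    refine sum_mem fun n _ => ?_
    obtain ⟨n, rfl⟩ : ∃ m, n = m + 1 := ⟨n - 1, by ring⟩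
    obtain ⟨y, hy, h⟩ := key n _ ⟨proj_mem_of hx, proj_mem x⟩ (by
      rw [← proj_cd c₁]
      exact pB _ _ hD)
    have h1 := Submodule.add_mem_sup (Submodule.mem_map_of_mem (f := vf δ₁) hy.1) h
    rwa [add_sub_cancel] at h1
  obtain ⟨_, ⟨y, hy, rfl⟩, z, hz, h⟩ := Submodule.mem_sup.1 h
  exact ⟨y, hy, by rwa [← h, add_sub_cancel_left]⟩

theorem n4 : N4Stmt := by
  classical
  intro E O J Γ _ _ _ _ _ _ _ Al c δ ω f hG j₀ K hKA hKδ hω hcomm Me Mo E0 Θ r a cd hMe hMo hE0 hΘ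
    hr ha hf hcd hcdT hcdE hcdA hinj k hk γ p
  obtain ⟨M, hM⟩ : ∃ M : Gn E O J → Prop, M = fun g => Me g ∨ Mo g := ⟨_, rfl⟩
  obtain ⟨F, hF⟩ : ∃ F, F = kill (O := O ⊕ J) K (f j₀) := ⟨_, rfl⟩
  have hMe' : ∀ g, Me g → g.isRight = false := fun g h =>
    Sum.isRight_eq_false.2 (hMe g h).2.2.1
  have hc : Ctx Al K M E0 F := by
    refine ⟨hG.alT, hG.alE, hKA, ?_, ?_, ?_⟩
    · rw [hM]
      rintro g (h | h)
      · exact ⟨(hMe g h).1, (hMe g h).2.1⟩
      · exact ⟨(hMo g h).1, (hMo g h).2.1⟩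
    · rw [hM]
      refine fun g h => ⟨(hE0 g h).1, (hE0 g h).2.1, ?_⟩
      rintro (h' | h')
      · exact (hE0 g h).2.2.2.1 h'
      · exact absurd (hMo g h').2.2.1 (by simpa using (hE0 g h).2.2.1)
    · change (pol F : Sp (E ⊕ J) (O ⊕ J)) ∈ mono (sup E0)
      rw [hF, (kill_sub K _).2]
      have h : proj (fun μ => ¬ has K μ) (pol (f j₀) : Sp (E ⊕ J) (O ⊕ J)) ∈
          mono fun μ => (has K μ ∨ sup E0 μ) ∧ ¬ has K μ := by
        rw [mono_and]
        exact ⟨proj_mem_of hf, proj_mem _⟩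
      exact mono_le (fun μ h => h.1.resolve_left h.2) h
  rw [← hM] at hMe hMo ⊢
  have nK : ∀ μ, sup E0 μ → ¬ has K μ := fun μ h ⟨g, h1, h2⟩ => (hc.e0 g (h g h2)).2.1 h1
  have nM : ∀ μ, sup E0 μ → cnt M μ = 0 := fun μ h => cnt_sup (fun g hg => (hc.e0 g hg).2.2) h
  have c1 : ∀ g, M g → cnt M (Pi.single g 1) = 1 := fun g h => by rw [cnt_single, if_pos h]
  have c0 : ∀ g, ¬ M g → cnt M (Pi.single g 1) = 0 := fun g h => by rw [cnt_single, if_neg h]
  have hM' : ∀ g, M g ↔ Me g ∨ Mo g := fun g => by rw [hM]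
  have mMo : ∀ g, Mo g → M g := fun g h => (hM' g).2 (Or.inr h)
  have hlin : ∀ g, ∑ g', mul (a g g') * gn g' ∈
      words fun ν : Gn E O J → ℕ => ¬ has K ν ∧ cnt M ν = 1 := fun g => by
    refine sum_mem fun g' _ => ?_
    by_cases h : a g g' = 0
    · have e : (mul 0 : Op E O J) = 0 := map_zero mulA
      rw [h, e, zero_mul]
      exact zero_mem _
    have b := mMo g' ((ha g g').2 h).2
    refine mul_mem_words (mul_mem_words_of_pol (ha g g').1)
      (gn_mem_words (P := fun ν => ν = Pi.single g' 1) rfl) ?_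
    rintro μ _ hμ rfl
    rw [has_add, has_single, cnt_add, nM μ hμ, c1 g' b]
    exact ⟨fun h => h.elim (nK μ hμ) (hc.mAl g' b).2, rfl⟩
  have hδK : ∀ g, δ g ∈ words fun ν => has K ν ∨
      (Al g ∧ ¬ K g ∧ ¬ E0 g ∧ cnt M (Pi.single g 1) ≤ cnt M ν) := by
    intro g
    by_cases h1 : ¬ Al g
    · rw [hG.dz g h1]
      exact zero_mem _
    rw [not_not] at h1
    by_cases h2 : K g
    · exact words_le (fun _ => Or.inl) (hKδ g h2)
    by_cases h3 : E0 g
    · exact words_le (fun _ => Or.inl) (hE0 g h3).2.2.2.2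
    by_cases h4 : M g
    · rw [c1 g h4]
      rcases (hM' g).1 h4 with h5 | h5
      · have b := add_mem (words_le (P' := fun ν => has K ν ∨ (Al g ∧ ¬ K g ∧ ¬ E0 g ∧ 1 ≤ cnt M ν))
          (fun ν h => h.imp_right fun h => ⟨h1, h2, h3, by omega⟩) (hMe g h5).2.2.2.2)
          (words_le (fun ν h => Or.inr ⟨h1, h2, h3, h.2.ge⟩) (hlin g))
        rwa [sub_add_cancel] at b
      · exact words_le (fun ν h => h.imp_right fun h => ⟨h1, h2, h3, by omega⟩) (hMo g h5).2.2.2.2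
    · rw [c0 g h4]
      exact words_le (fun ν _ => Or.inr ⟨h1, h2, h3, Nat.zero_le _⟩) (hG.dw g)
  choose δ₁ h11 h12 using fun g =>
    words_split (fun ν => ¬ has K ν) (words_and (hδK g) (words_and (hG.dw g) (hcd g)))
  choose δ₀ h01 h02 using fun g =>
    words_split (fun ν => cnt M ν = cnt M (Pi.single g 1)) (h11 g)
  have adm : ∀ g ν, ((has K ν ∨ (Al g ∧ ¬ K g ∧ ¬ E0 g ∧ cnt M (Pi.single g 1) ≤ cnt M ν)) ∧
      (sup Al ν ∧ ws c ν = c g ∧ od ν = !g.isRight) ∧ ws cd ν = cd g + 1) ∧ ¬ has K ν →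
      (Al g ∧ ¬ K g ∧ ¬ E0 g ∧ sup Al ν ∧ cnt M (Pi.single g 1) ≤ cnt M ν) ∧
        od ν = xor g.isRight true := fun g ν h =>
    have b := h.1.1.resolve_left h.2
    ⟨⟨b.1, b.2.1, b.2.2.1, h.1.2.1.1, b.2.2.2⟩, by rw [h.1.2.1.2.2, Bool.xor_true]⟩
  have hA₁ : Adm Al K M E0 δ₁ := fun g => words_le (adm g) (h11 g)
  have hA₀ : Adm Al K M E0 δ₀ := fun g => words_le (fun ν h => adm g ν h.1) (h01 g)
  have h12' : ∀ g, δ g - δ₁ g ∈ words (has K) := fun g =>
    words_le (fun ν h => not_not.1 h.2) (h12 g)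
  have h01' : ∀ g, δ₀ g ∈ words fun ν => ¬ has K ν ∧ cnt M ν = cnt M (Pi.single g 1) := fun g =>
    words_le (fun ν h => ⟨h.1.2, h.2⟩) (h01 g)
  have h02' : ∀ g, δ₁ g - δ₀ g ∈ words fun ν => cnt M (Pi.single g 1) < cnt M ν := fun g =>
    words_le (fun ν h => lt_of_le_of_ne (adm g ν h.1).1.2.2.2.2 (Ne.symm h.2)) (h02 g)
  have uniq : ∀ g m, m ∈ (words fun ν => ¬ has K ν ∧ cnt M ν = cnt M (Pi.single g 1)) →
      δ g - m ∈ (words fun ν => has K ν ∨ cnt M (Pi.single g 1) < cnt M ν) → δ₀ g = m := by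
    intro g m h1 h2
    have b := sub_mem (sub_mem h2 (words_le (fun _ => Or.inl) (h12' g)))
      (words_le (fun _ => Or.inr) (h02' g))
    rw [show δ g - m - (δ g - δ₁ g) - (δ₁ g - δ₀ g) = δ₀ g - m by abel] at b
    exact sub_eq_zero.1 (words_false (words_and (sub_mem (h01' g) h1) b) fun ν h =>
      h.2.elim h.1.1 h.1.2.not_gt)
  have dK : ∀ y, vf δ y - vf δ₁ y ∈ mono (has K) := fun y => by
    rw [← LinearMap.sub_apply, ← vf_sub]
    exact vf_mem (δ := δ - δ₁) h12' (mem_true y) fun g μ ν _ h => has_add.2 (Or.inl h)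
  have vK : ∀ y ∈ mono (has K), vf δ y ∈ mono (has K) := fun y hy =>
    vf_mem hδK hy fun g μ ν h1 h2 => has_add.2 (h2.imp_right fun h3 =>
      (has_add.1 h1).resolve_right fun h4 => h3.2.1 (has_single.1 h4))
  have sq₁ : ∀ y, vf δ₁ (vf δ₁ y) ∈ mono (has K) := fun y => by
    have b := neg_mem (add_mem (vK _ (dK y)) (dK (vf δ₁ y)))
    rwa [map_sub, ← Module.End.mul_apply, hG.sq, LinearMap.zero_apply,
      show -(0 - vf δ (vf δ₁ y) + (vf δ (vf δ₁ y) - vf δ₁ (vf δ₁ y))) = vf δ₁ (vf δ₁ y) by abel] at b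
  have d₀ : ∀ j, ∀ y ∈ mono fun μ => cnt M μ = j, vf δ₀ y ∈ mono fun μ => cnt M μ = j :=
    fun j y hy => vf_mem h01' hy fun g μ ν h1 h2 => by
      rw [cnt_add] at h1 ⊢
      omega
  have d₁ : ∀ j, ∀ y ∈ mono fun μ => cnt M μ = j,
      vf δ₁ y - vf δ₀ y ∈ mono fun μ => j < cnt M μ := fun j y hy => by
    rw [← LinearMap.sub_apply, ← vf_sub]
    exact vf_mem (δ := δ₁ - δ₀) h02' hy fun g μ ν h1 h2 => by
      rw [cnt_add] at h1 ⊢
      omega
  have sq₀ : vf δ₀ * vf δ₀ = 0 := by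
    refine vf_sq (fun g => words_le (fun ν h => h.1.1.2.1.2.2) (h01 g)) fun g => ?_
    have b1 := vf_br (δ := δ₀) (s := true) (Pg := fun _ _ => True) (P := fun _ => True)
      (P' := fun _ => True) (a := !g.isRight)
      (fun g => words_le (fun ν h => ⟨trivial, h⟩) (hA₀.odd g))
      (words_le (fun ν h => ⟨trivial, h.1.1.2.1.2.2⟩) (h01 g)) fun _ _ _ _ _ => trivial
    refine sub_eq_zero.1 (words_ext b1 ?_)
    rw [LinearMap.sub_apply, LinearMap.smul_apply, Module.End.mul_apply, Module.End.mul_apply,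
      vf_one, map_zero, smul_zero, sub_zero]
    by_cases hg : K g
    · rw [words_false (hA₀ g) fun ν h => h.1.2.1 hg, LinearMap.zero_apply, map_zero]
    have b2 := LinearMap.congr_fun (vf_gn hA₀.odd g) one
    rw [LinearMap.sub_apply, LinearMap.smul_apply, Module.End.mul_apply, Module.End.mul_apply,
      vf_one, map_zero, smul_zero, sub_zero] at b2
    rw [← b2]
    obtain ⟨u, hu⟩ : ∃ u, u = gn g (one : Sp (E ⊕ J) (O ⊕ J)) := ⟨_, rfl⟩
    rw [← hu]
    have b3 : u ∈ mono fun μ => cnt M μ = cnt M (Pi.single g 1) :=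
      hu ▸ gn_mem g (one_mem (P := fun μ => μ = 0) rfl) fun μ h => by rw [h, zero_add]
    have b4 : u ∈ mono fun μ => ¬ has K μ :=
      hu ▸ gn_mem g (one_mem (P := fun μ => μ = 0) rfl) fun μ h => by
        rwa [h, zero_add, has_single]
    have b5 : ∀ y ∈ mono fun μ => ¬ has K μ, vf δ₀ y ∈ mono fun μ => ¬ has K μ := fun y hy =>
      vf_mem h01' hy fun g μ ν h1 h2 h3 =>
        (has_add.1 h3).elim h2.1 fun h4 => h1 (has_add.2 (Or.inl h4))
    have b6 : vf δ₁ (vf δ₁ u - vf δ₀ u) ∈ mono fun μ => cnt M (Pi.single g 1) < cnt M μ :=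
      vf_mem hA₁ (d₁ _ u b3) fun g μ ν h1 h2 => by
        have := h2.1.2.2.2.2
        rw [cnt_add] at h1 ⊢
        omega
    have b7 : vf δ₀ (vf δ₀ u) ∈ mono fun μ => has K μ ∨ cnt M (Pi.single g 1) < cnt M μ := by
      have b8 := sub_mem (sub_mem (mono_le (P' := fun μ => has K μ ∨ cnt M (Pi.single g 1) < cnt M μ)
        (fun _ => Or.inl) (sq₁ u)) (mono_le (fun _ => Or.inr) b6))
        (mono_le (fun _ => Or.inr) (d₁ _ _ (d₀ _ u b3)))
      rwa [map_sub, show vf δ₁ (vf δ₁ u) - (vf δ₁ (vf δ₁ u) - vf δ₁ (vf δ₀ u)) -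
        (vf δ₁ (vf δ₀ u) - vf δ₀ (vf δ₀ u)) = vf δ₀ (vf δ₀ u) by abel] at b8
    have b9 : vf δ₀ (vf δ₀ u) ∈ mono fun μ => ¬ has K μ ∧ cnt M μ = cnt M (Pi.single g 1) := by
      rw [mono_and]
      exact ⟨b5 _ (b5 _ b4), d₀ _ _ (d₀ _ u b3)⟩
    exact eq_zero_of_mem_mono b9 b7 fun μ h1 h2 => h2.elim h1.1 h1.2.not_gt
  have ex₀ : Ex (vf δ₀) (mono (PW Al K M j₀ k)) (mono (PW Al K M j₀ k)) (BB K j₀ F) := by
    have e1 : ∀ g, Me g ∨ Mo g → δ₀ g = ∑ g', mul (a g g') * gn g' := by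
      intro g hg
      have hg' : M g := (hM' g).2 hg
      refine uniq g _ (by rw [c1 g hg']; exact hlin g) ?_
      rw [c1 g hg']
      rcases hg with h | h
      · exact (hMe g h).2.2.2.2
      · have e : (mul 0 : Op E O J) = 0 := map_zero mulA
        rw [sum_eq_zero fun g' _ => ?_, sub_zero]
        · exact (hMo g h).2.2.2.2
        · have b : a g g' = 0 := not_not.1 fun h' => by
            simpa [hMe' g ((ha g g').2 h').1] using (hMo g h).2.2.1
          rw [b, e, zero_mul]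
    have e2 : ∀ g, ¬ (Me g ∨ Mo g) → δ₀ g ∈ words fun μ => ¬ has Mo μ := fun g hg =>
      words_le (fun ν h ⟨g', h1, h2⟩ => cnt_ne_zero.2 ⟨g', mMo g' h1, h2⟩
        (h.2.trans (c0 g fun h' => hg ((hM' g).1 h')))) (h01' g)
    have e3 : ∀ g, Θ g → Al g ∧ g.isRight = true ∧ δ₀ g = mul (r g) := by
      intro g hg
      obtain ⟨b1, -, b2, b3, b4⟩ := hΘ g hg
      have b5 : ¬ M g := by
        rw [hM]
        rintro (h | h)
        · simp [hMe' g h] at b2
        · exact b3 h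
      refine ⟨b1, b2, uniq g _ ?_ (words_le (fun _ => Or.inl) b4)⟩
      rw [c0 g b5]
      exact words_le (fun ν h => ⟨nK ν h, nM ν h⟩) (mul_mem_words_of_pol (hr g))
    subst hM
    refine ex_lin hc hA₀ sq₀ hMe' (fun g h => (hMo g h).2.2.1) e1 e2 e3 hr ha
      (fun y h1 h2 h3 => hinj y h1 h2 ?_) hk
    have b := eval_has (kill_sub K (f j₀)).1 (y := y) fun e he => h1 e fun h => (hc.e0 _ h).2.1 he
    rw [map_sub, ← hF, sub_eq_zero] at b
    rwa [b]
  have ex₁ := ex_top hc hA₀ hA₁ (fun g h => ((hM' g).1 h).elim (fun h => (hMe g h).2.2.2.1)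
    fun h => (hMo g h).2.2.2.1) hcdT hcdA hcdE (fun g => words_le (fun ν h => h.1.1.2.2) (h01 g))
    (fun g => words_le (fun ν h => h.1.2.2) (h11 g)) d₀ d₁ sq₁ ex₀
  have hD : ∀ y ∈ mono (PW Al K M j₀ k), Dloc δ ω f ∅ y - vf δ y ∈ mono (has K) := by
    intro y hy
    rw [Dloc, sum_empty, add_zero, LinearMap.add_apply, LinearMap.sub_apply, LinearMap.sum_apply,
      sum_eq_zero fun j _ => ?_, sub_zero, add_sub_cancel_left]
    · exact words_apply_mem hω (mem_true y) fun _ _ h _ => has_add.2 (Or.inl h)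
    · by_cases hj : j = j₀
      · rw [hj, hcomm, sub_self, mul_zero, zero_mul, LinearMap.zero_apply]
      · rw [Module.End.mul_apply, dr_eq_zero _ (mono_le (fun μ h => not_not.1 fun h' => ?_) hy),
          map_zero]
        rcases h.1.1 _ h' with h | h | h
        · exact hG.alT j h
        · exact hj (Sum.inr_injective (Sum.inl_injective h))
        · cases h
  have hZ : ∀ q y, y ∈ ZZ Al c {j₀} ∅ γ q ⊓ mono (fun μ => has K μ ∨ k ≤ cnt M μ) ↔
      y ∈ mono (PW Al K M j₀ k) ∧ y ∈ mono fun μ => ws c μ = γ ∧ od μ = q := by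
    intro q y
    rw [← Submodule.mem_inf, ZZ, ← mono_and, ← mono_and]
    refine iff_of_eq (congrArg (fun P => y ∈ mono P) (funext fun μ => propext ?_))
    rw [cech_iff hG.alE, PW]
    tauto
  intro x hx hDx
  obtain ⟨hxW, hxp⟩ := (hZ p x).1 hx
  obtain ⟨y, hy, h⟩ := ex₁ x hxW ((BB_iff hc hF (PW_pat hc.alE (hA₁.memW hc.alE hxW))).1 (by
    have b := sub_mem (sub_mem hDx (Submodule.mem_sup_right (hD x hxW)))
      (Submodule.mem_sup_right (dK x))
    rwa [sub_sub_cancel, sub_sub_cancel] at b))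
  have h1 := (BB_iff hc hF (PW_pat hc.alE (sub_mem hxW (hA₁.memW hc.alE hy)))).2 h
  have h2 : x - vf δ y ∈ rel f ⊔ mono (has K) := by
    have b := sub_mem h1 (Submodule.mem_sup_right (dK y))
    rwa [show x - vf δ₁ y - (vf δ y - vf δ₁ y) = x - vf δ y by abel] at b
  have h3 : proj (fun μ => ws c μ = γ ∧ od μ = p) (x - vf δ y) ∈ rel f ⊔ mono (has K) := by
    obtain ⟨u, hu, z, hz, e⟩ := Submodule.mem_sup.1 h2
    rw [← e, map_add]
    refine Submodule.add_mem_sup (proj_rel (A := univ) (fun j _ m hm μ hμ => ?_)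
      (mono_le (fun _ _ j _ => mem_univ j) (mem_true u)) hu) (proj_mem_of hz)
    obtain ⟨-, b1, b2⟩ := hG.cech_add ∅ ∅ j m hm μ hμ
    rw [b1, b2]
  have h4 : ∀ g μ ν, sup Al ν ∧ ws c ν = c g ∧ od ν = !g.isRight →
      ((ws c (μ + Pi.single g 1) = γ ∧ od (μ + Pi.single g 1) = !p) ↔
        (ws c (ν + μ) = γ ∧ od (ν + μ) = p)) := by
    intro g μ ν h
    rw [ws_add, ws_add, od_add, od_add, ws_single, od_single, h.2.1, h.2.2, add_comm]
    cases g.isRight <;> cases od μ <;> cases p <;> simp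
  rw [map_sub, proj_eq_self hxp, proj_comm (A := fun _ => True)
    (P := fun μ => ws c μ = γ ∧ od μ = !p)
    (fun z hz => vf_mem hG.dw hz fun g μ ν b1 b2 => (h4 g μ ν b2).1 b1.2)
    (fun z hz => vf_mem hG.dw hz fun g μ ν b1 b2 b3 => b1.2 ((h4 g μ ν b2).2 b3))
    (mem_true y)] at h3
  refine ⟨_, (hZ (!p) _).2 ⟨proj_mem_of hy, proj_mem y⟩, ?_⟩
  have b := sub_mem h3 (Submodule.mem_sup_right (hD _ (proj_mem_of
    (P := fun μ => ws c μ = γ ∧ od μ = !p) hy)))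
  rwa [sub_sub, add_sub_cancel] at b

end Pool.Agent.MP_8be872_ag.H62
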