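import Pool.Agent.MP_8be872_ag.H63.ApiC

/-! Eigenvectors of the Laplacian and the left inverse of an injective matrix. -/

namespace Pool.Agent.MP_8be872_ag.H62

open Finset H38 H56 H63 MvPolynomial

section Eig

variable {M : Type} [AddCommGroup M] [Module ℂ M] (N Δ : Module.End ℂ M)

/-- The sum of the eigenspaces `N = t Δ`, `i ≤ t`. -/
noncomputable def eigU (i : ℕ) : Submodule ℂ M :=
  ⨆ (t : ℕ) (_ : i ≤ t), LinearMap.ker (N - (t : ℂ) • Δ)

variable {N Δ}

theorem eigU_map {u : Module.End ℂ M} (s : ℕ) (h1 : N * u = u * N + (s : ℂ) • (Δ * u))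
    (h2 : Δ * u = u * Δ) (i : ℕ) {x : M} (hx : x ∈ eigU N Δ i) : u x ∈ eigU N Δ (i + s) := by
  have h : eigU N Δ i ≤ (eigU N Δ (i + s)).comap u := iSup₂_le fun t ht y hy => by
    refine Submodule.mem_iSup_of_mem (t + s) (Submodule.mem_iSup_of_mem (by omega) ?_)
    have e : (N - ((t + s : ℕ) : ℂ) • Δ) * u = u * (N - (t : ℂ) • Δ) := by
      rw [sub_mul, mul_sub, h1, smul_mul_assoc, mul_smul_comm, h2, Nat.cast_add, add_smul]
      abel
    rw [LinearMap.mem_ker] at hy ⊢
    rw [← Module.End.mul_apply, e, Module.End.mul_apply, hy, map_zero]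
  exact h hx

theorem eigU_mono {i j : ℕ} (h : i ≤ j) : eigU N Δ j ≤ eigU N Δ i :=
  iSup₂_le fun t ht => le_iSup₂_of_le t (h.trans ht) le_rfl

/-- The product of the `N - t Δ`. -/
noncomputable def eigR (N Δ : Module.End ℂ M) : ℕ → Module.End ℂ M
  | 0 => 1
  | T + 1 => eigR N Δ T * (N - ((T + 1 : ℕ) : ℂ) • Δ)

theorem eigR_kill (hc : N * Δ = Δ * N) {x : M} (hx : x ∈ eigU N Δ 1) :
    ∃ T₀, ∀ T, T₀ ≤ T → eigR N Δ T x = 0 := by
  have key : ∀ t : ℕ, 1 ≤ t → ∀ T, t ≤ T → ∀ y ∈ LinearMap.ker (N - (t : ℂ) • Δ),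
      eigR N Δ T y = 0 := by
    intro t ht T
    induction T with
    | zero => omega
    | succ T ih =>
      intro hT y hy
      rw [eigR, Module.End.mul_apply]
      rcases hT.eq_or_lt with h | h
      · rw [← h, LinearMap.mem_ker.1 hy, map_zero]
      · refine ih (by omega) _ ?_
        have e : (N - (t : ℂ) • Δ) * (N - ((T + 1 : ℕ) : ℂ) • Δ) =
            (N - ((T + 1 : ℕ) : ℂ) • Δ) * (N - (t : ℂ) • Δ) := by
          simp only [sub_mul, mul_sub, smul_mul_assoc, mul_smul_comm, hc, smul_sub, smul_smul,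
            mul_comm (t : ℂ)]
          abel
        rw [LinearMap.mem_ker, ← Module.End.mul_apply, e, Module.End.mul_apply,
          LinearMap.mem_ker.1 hy, map_zero]
  let C : Submodule ℂ M :=
    { carrier := {x | ∃ T₀, ∀ T, T₀ ≤ T → eigR N Δ T x = 0}
      zero_mem' := ⟨0, fun _ _ => map_zero _⟩
      add_mem' := by
        rintro a b ⟨A, hA⟩ ⟨B, hB⟩
        exact ⟨A + B, fun T hT => by rw [map_add, hA T (by omega), hB T (by omega), add_zero]⟩
      smul_mem' := by
        rintro s a ⟨A, hA⟩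
        exact ⟨A, fun T hT => by rw [map_smul, hA T hT, smul_zero]⟩ }
  have h : eigU N Δ 1 ≤ C := iSup₂_le fun t ht y hy => ⟨t, fun T hT => key t ht T hT y hy⟩
  exact h hx

theorem eig_bd (hc : N * Δ = Δ * N) {Cy Bd : Submodule ℂ M} (h1 : ∀ x ∈ Cy, N x ∈ Cy)
    (h2 : ∀ x ∈ Cy, N x ∈ Bd) (h3 : ∀ x ∈ Cy, Δ x ∈ Cy) (h4 : ∀ x ∈ Bd, Δ x ∈ Bd) {x : M}
    (hx : x ∈ Cy) (hu : x ∈ eigU N Δ 1) : ∃ n : ℕ, (Δ ^ n) x ∈ Bd := by
  have hp : ∀ n : ℕ, ∀ y ∈ Bd, (Δ ^ n) y ∈ Bd := by
    intro n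
    induction n with
    | zero => exact fun y hy => hy
    | succ n ih => exact fun y hy => by rw [pow_succ, Module.End.mul_apply]; exact ih _ (h4 y hy)
  have key : ∀ T, ∀ y ∈ Cy, eigR N Δ T y = 0 → (Δ ^ T) y ∈ Bd := by
    intro T
    induction T with
    | zero => exact fun y _ h => by rw [pow_zero]; exact (show (1 : Module.End ℂ M) y = 0 from h) ▸ Bd.zero_mem
    | succ T ih =>
      intro y hy h
      rw [eigR, Module.End.mul_apply] at h
      have a1 := ih _ (Cy.sub_mem (h1 y hy) (Cy.smul_mem _ (h3 y hy))) h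
      have a2 := Bd.sub_mem (hp T _ (h2 y hy)) a1
      rw [map_sub, sub_sub_cancel, map_smul,
        Bd.smul_mem_iff (Nat.cast_ne_zero.2 (Nat.succ_ne_zero T))] at a2
      rwa [pow_succ, Module.End.mul_apply]
  obtain ⟨T, hT⟩ := eigR_kill hc hu
  exact ⟨T, key T x hx (hT T le_rfl)⟩

end Eig

section Mat

variable {G R : Type} [Fintype G] [DecidableEq G] [CommRing R] [Algebra ℂ R]

open Classical Matrix in
theorem left_inv (φ : R →ₐ[ℂ] ℂ) {Me Mo : G → Prop} (a : Matrix G G R)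
    (ha : ∀ g g', a g g' ≠ 0 → Me g ∧ Mo g')
    (hinj : ∀ ξ : G → ℂ, (∀ g', ∑ g, ξ g * φ (a g g') = 0) → ∀ g, Me g → ξ g = 0) :
    ∃ (Δ : R) (l : Matrix G G R), φ Δ ≠ 0 ∧ (∀ g' g, l g' g ≠ 0 → Mo g' ∧ Me g) ∧
      a * l = Δ • diagonal fun g => if Me g then 1 else 0 := by
  obtain ⟨e, he⟩ : ∃ e : Matrix G G R, e = diagonal fun g => if Me g then 1 else 0 := ⟨_, rfl⟩
  obtain ⟨L, hL⟩ : ∃ L : Matrix G G R, L = fun g' g => algebraMap ℂ R (star (φ (a g g'))) :=
    ⟨_, rfl⟩
  have h1 : e * a = a := by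
    ext g g'
    rw [he, diagonal_mul]
    split_ifs with h
    · rw [one_mul]
    · rw [zero_mul]
      exact (not_not.1 fun h' => h (ha g g' h').1).symm
  have h2 : e * e = e := by
    rw [he, diagonal_mul_diagonal]
    refine congrArg _ (funext fun g => ?_)
    split_ifs <;> simp
  have h3 : e * (a * L + (1 - e)) = a * L := by
    rw [mul_add, mul_sub, mul_one, h2, sub_self, add_zero, ← Matrix.mul_assoc, h1]
  refine ⟨(a * L + (1 - e)).det, L * (a * L + (1 - e)).adjugate * e, ?_, fun g' g h => ⟨?_, ?_⟩, ?_⟩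
  · have e1 : φ.toRingHom.mapMatrix (a * L + (1 - e)) =
        a.map φ * (a.map φ)ᴴ + diagonal fun g => if Me g then 0 else 1 := by
      ext g g'
      simp only [RingHom.mapMatrix_apply, map_apply, Matrix.add_apply, Matrix.sub_apply, mul_apply,
        conjTranspose_apply, he, hL, one_apply, diagonal_apply, AlgHom.toRingHom_eq_coe,
        RingHom.coe_coe, map_add, map_sub, map_mul, AlgHom.commutes,
        Algebra.algebraMap_self, RingHom.id_apply]
      split_ifs <;> simp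
    have e2 := φ.toRingHom.map_det (a * L + (1 - e))
    rw [e1] at e2
    change φ.toRingHom _ ≠ 0
    rw [e2]
    intro h
    obtain ⟨v, hv, h0⟩ := exists_vecMul_eq_zero_iff.2 h
    have b1 := congrArg (fun w => w ⬝ᵥ star v) h0
    simp only [vecMul_add, add_dotProduct, zero_dotProduct] at b1
    rw [← vecMul_vecMul, ← dotProduct_mulVec, ← star_vecMul] at b1
    have b2 : (0 : ℝ) ≤ ∑ g, ‖(v ᵥ* a.map φ) g‖ ^ 2 := sum_nonneg fun _ _ => sq_nonneg _
    have b3 : ∀ g, (0 : ℝ) ≤ if Me g then 0 else ‖v g‖ ^ 2 := fun g => by split_ifs <;> positivity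
    have b4 : ∑ g, ‖(v ᵥ* a.map φ) g‖ ^ 2 + ∑ g, (if Me g then 0 else ‖v g‖ ^ 2) = 0 := by
      have b5 := congrArg Complex.re b1
      rw [Complex.add_re, Complex.zero_re, dotProduct, dotProduct, Complex.re_sum,
        Complex.re_sum] at b5
      refine Eq.trans (congrArg₂ _ (sum_congr rfl fun g _ => ?_) (sum_congr rfl fun g _ => ?_)) b5
      · rw [Pi.star_apply, Complex.star_def, Complex.mul_conj', ← Complex.ofReal_pow,
          Complex.ofReal_re]
      · rw [vecMul_diagonal, Pi.star_apply]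
        split_ifs
        · simp
        · rw [mul_one, Complex.star_def, Complex.mul_conj', ← Complex.ofReal_pow,
            Complex.ofReal_re]
    have b5 := sum_nonneg fun g (_ : g ∈ univ) => b3 g
    have b6 := (sum_eq_zero_iff_of_nonneg fun g _ => sq_nonneg ‖(v ᵥ* a.map φ) g‖).1
      (show ∑ g, ‖(v ᵥ* a.map φ) g‖ ^ 2 = 0 by linarith)
    have b7 := (sum_eq_zero_iff_of_nonneg fun g _ => b3 g).1
      (show ∑ g, (if Me g then 0 else ‖v g‖ ^ 2) = 0 by linarith)
    refine hv (funext fun g => ?_)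
    by_cases hg : Me g
    · exact hinj v (fun g' => norm_eq_zero.1 (pow_eq_zero_iff two_ne_zero |>.1
        (b6 g' (mem_univ _)))) g hg
    · have b8 := b7 g (mem_univ _)
      rw [if_neg hg] at b8
      exact norm_eq_zero.1 (pow_eq_zero_iff two_ne_zero |>.1 b8)
  · by_contra h'
    refine h ?_
    rw [Matrix.mul_assoc, mul_apply]
    refine sum_eq_zero fun g'' _ => ?_
    have : a g'' g' = 0 := not_not.1 fun h'' => h' (ha g'' g' h'').2
    simp [hL, this]
  · by_contra h'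
    refine h ?_
    rw [he, mul_diagonal, if_neg h', mul_zero]
  · rw [← he]
    generalize a * L + (1 - e) = S at h3
    rw [← Matrix.mul_assoc, ← Matrix.mul_assoc, ← h3, Matrix.mul_assoc e, mul_adjugate,
      Matrix.mul_smul, mul_one, Matrix.smul_mul, h2]

end Mat

section Words

variable {E O : Type} [Fintype E] [Fintype O] [DecidableEq E] [DecidableEq O]

theorem words_false {P : (E ⊕ O → ℕ) → Prop} {m : Module.End ℂ (Sp E O)} (hm : m ∈ words P)
    (h : ∀ μ, ¬ P μ) : m = 0 := by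
  refine words_ext hm ?_
  have h1 : m one ∈ mono fun _ => False :=
    words_apply_mem hm (one_mem (P := fun _ => True) trivial) fun a _ ha _ => h a ha
  rwa [mono_false, Submodule.mem_bot] at h1

theorem eig_mono {N Δ : Module.End ℂ (Sp E O)} {Me : E ⊕ O → Prop} (h1 : N one = 0)
    (hc : N * Δ = Δ * N) (hg : ∀ g, Δ * gn g = gn g * Δ)
    (h0 : ∀ g i, ∀ x ∈ eigU N Δ i, Δ (gn g x) ∈ eigU N Δ i)
    (he : ∀ g, Me g → ∀ x ∈ eigU N Δ 0, Δ (gn g x) ∈ eigU N Δ 1) {x : Sp E O}
    (hx : x ∈ mono (has Me)) : ∃ n : ℕ, (Δ ^ n) x ∈ eigU N Δ 1 := by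
  have hp : ∀ n : ℕ, ∀ y ∈ eigU N Δ 1, (Δ ^ n) y ∈ eigU N Δ 1 := by
    intro n
    induction n with
    | zero => exact fun y hy => hy
    | succ n ih =>
      intro y hy
      rw [pow_succ, Module.End.mul_apply]
      exact ih _ (eigU_map 0 (by rw [hc, Nat.cast_zero, zero_smul, add_zero]) rfl 1 hy)
  have key : ∀ l : List (E ⊕ O), (Δ ^ l.length) ((l.map gn).prod one) ∈ eigU N Δ 0 ∧
      (has Me (fun g => l.count g) → (Δ ^ l.length) ((l.map gn).prod one) ∈ eigU N Δ 1) := by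
    intro l
    induction l with
    | nil =>
      refine ⟨Submodule.mem_iSup_of_mem 0 (Submodule.mem_iSup_of_mem le_rfl ?_),
        fun ⟨_, _, h⟩ => absurd rfl h⟩
      simpa using h1
    | cons g l ih =>
      have e : (Δ ^ (g :: l).length) (((g :: l).map gn).prod one) =
          Δ (gn g ((Δ ^ l.length) ((l.map gn).prod one))) := by
        rw [List.length_cons, List.map_cons, List.prod_cons, pow_succ', Module.End.mul_apply,
          Module.End.mul_apply, ← Module.End.mul_apply (Δ ^ l.length),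
          (Commute.pow_left (hg g) _).eq, Module.End.mul_apply]
      rw [e]
      refine ⟨h0 g 0 _ ih.1, ?_⟩
      intro hm
      rw [count_cons', has_add, has_single] at hm
      rcases hm with hm | hm
      · exact h0 g 1 _ (ih.2 hm)
      · exact he _ hm _ ih.1
  let C : Submodule ℂ (Sp E O) :=
    { carrier := {x | ∃ n : ℕ, (Δ ^ n) x ∈ eigU N Δ 1}
      zero_mem' := ⟨0, by rw [map_zero]; exact zero_mem _⟩
      add_mem' := by
        rintro a b ⟨A, hA⟩ ⟨B, hB⟩
        refine ⟨A + B, ?_⟩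
        rw [map_add]
        refine add_mem ?_ ?_
        · rw [add_comm, pow_add, Module.End.mul_apply]
          exact hp _ _ hA
        · rw [pow_add, Module.End.mul_apply]
          exact hp _ _ hB
      smul_mem' := by
        rintro s a ⟨A, hA⟩
        exact ⟨A, by rw [map_smul]; exact Submodule.smul_mem _ _ hA⟩ }
  refine mono_le_of_bas (C := C) (fun S m h => ?_) hx
  obtain ⟨l, hl, hb⟩ := bas_eq_word S m
  exact ⟨l.length, hb ▸ (key l).2 (hl ▸ h)⟩

end Words

end Pool.Agent.MP_8be872_ag.H62
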