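import Pool.Agent.MP_8be872_ag.H62.N4A

/-! The Laplacian of the linear part and its homotopy. -/

namespace Pool.Agent.MP_8be872_ag.H62

open Finset H38 H56 H63 MvPolynomial Matrix

variable {E O R : Type} [Fintype E] [Fintype O] [DecidableEq E] [DecidableEq O] [CommRing R]
  (ρ : R →+* Module.End ℂ (Sp E O))

/-- A combination of generators with coefficients in `R`. -/
noncomputable def lc (b : E ⊕ O → R) : Module.End ℂ (Sp E O) := ∑ g, ρ (b g) * gn g

theorem lc_zero : lc ρ 0 = 0 := by simp [lc]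

theorem lc_add (b b' : E ⊕ O → R) : lc ρ (b + b') = lc ρ b + lc ρ b' := by
  simp [lc, add_mul, sum_add_distrib]

theorem lc_smul (q : R) (b : E ⊕ O → R) : lc ρ (q • b) = ρ q * lc ρ b := by
  simp only [lc, mul_sum, Pi.smul_apply, smul_eq_mul, map_mul, mul_assoc]

theorem lc_vecMul (b : E ⊕ O → R) (A : Matrix (E ⊕ O) (E ⊕ O) R) :
    ∑ g, ρ (b g) * lc ρ (A g) = lc ρ (b ᵥ* A) := by
  simp only [lc, vecMul, dotProduct, map_sum, map_mul, mul_sum, sum_mul, mul_assoc]
  exact sum_comm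

theorem lc_single (q : R) (g : E ⊕ O) : lc ρ (Pi.single g q) = ρ q * gn g := by
  rw [lc, sum_eq_single g]
  · rw [Pi.single_eq_same]
  · intro g' _ h
    rw [Pi.single_eq_of_ne h, map_zero, zero_mul]
  · exact fun h => absurd (mem_univ _) h

variable {ρ}

theorem lc_br {L : Module.End ℂ (Sp E O)} (hL : ∀ q, L * ρ q = ρ q * L) (s : ℂ)
    {b : E ⊕ O → R} {ζ : E ⊕ O → Module.End ℂ (Sp E O)}
    (h : ∀ g, b g ≠ 0 → L * gn g - s • (gn g * L) = ζ g) :
    L * lc ρ b - s • (lc ρ b * L) = ∑ g, ρ (b g) * ζ g := by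
  rw [lc, mul_sum, sum_mul, smul_sum, ← sum_sub_distrib]
  refine sum_congr rfl fun g _ => ?_
  by_cases hg : b g = 0
  · simp [hg]
  · rw [← h g hg, ← mul_assoc, hL, mul_sub, mul_smul_comm, mul_assoc, mul_assoc]

open Classical in
theorem lap (hρ : ∀ q g, ρ q * gn g = gn g * ρ q) {δ η : E ⊕ O → Module.End ℂ (Sp E O)}
    {a l : Matrix (E ⊕ O) (E ⊕ O) R} {Δ : R} {Me Mo : E ⊕ O → Prop}
    (hMe : ∀ g, Me g → g.isRight = false) (hMo : ∀ g, Mo g → g.isRight = true)
    (ha : ∀ g g', a g g' ≠ 0 → Me g ∧ Mo g') (hl : ∀ g' g, l g' g ≠ 0 → Mo g' ∧ Me g)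
    (hal : a * l = Δ • diagonal fun g => if Me g then 1 else 0)
    (hδ : ∀ g, δ g ∈ words fun μ => od μ = xor g.isRight true)
    (hη : ∀ g, η g ∈ words fun μ => od μ = xor g.isRight true)
    (hδa : ∀ g, Me g ∨ Mo g → δ g = lc ρ (a g)) (hηl : ∀ g, η g = lc ρ (l g))
    (hδ0 : ∀ g, ¬ (Me g ∨ Mo g) → δ g ∈ words fun μ => ¬ has Mo μ)
    (hc1 : ∀ q, vf δ * ρ q = ρ q * vf δ) (hc2 : ∀ q, vf η * ρ q = ρ q * vf η) {x : Sp E O}
    (hx : x ∈ mono (has Me)) :
    ∃ n : ℕ, (ρ Δ ^ n) x ∈ eigU (vf δ * vf η + vf η * vf δ) (ρ Δ) 1 := by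
  obtain ⟨N, hN⟩ : ∃ N, N = vf δ * vf η + vf η * vf δ := ⟨_, rfl⟩
  have hd : ∀ g, Me g → ¬ Mo g := fun g h h' => by simpa [hMe g h] using hMo g h'
  have hNq : ∀ q, N * ρ q = ρ q * N := fun q => by
    rw [hN, add_mul, mul_add, mul_assoc, hc2, mul_assoc, hc1, ← mul_assoc, ← mul_assoc, hc1, hc2,
      mul_assoc, mul_assoc]
  have ha0 : ∀ g, ¬ Me g → a g = 0 := fun g h => funext fun g' =>
    not_not.1 fun h' => h (ha g g' h').1
  have hl0 : ∀ g, ¬ Mo g → l g = 0 := fun g h => funext fun g' =>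
    not_not.1 fun h' => h (hl g g' h').1
  have h1 : ∀ g, N * gn g - (1 : ℂ) • (gn g * N) =
      (vf δ * η g - sg (!g.isRight) • (η g * vf δ)) +
        (vf η * δ g - sg (!g.isRight) • (δ g * vf η)) := by
    intro g
    have e1 := vf_gn hδ g
    have e2 := vf_gn hη g
    rw [hN, ← e1, ← e2]
    have s0 : ∀ m : Module.End ℂ (Sp E O), sg false • m = m := fun m => one_smul ℂ m
    have s1 : ∀ m : Module.End ℂ (Sp E O), sg true • m = -m := fun m => neg_one_smul ℂ m
    cases g.isRight <;>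
      simp only [Bool.and_false, Bool.and_true, Bool.not_false, Bool.not_true, s0, s1,
        one_smul, sub_neg_eq_add, mul_add, add_mul, mul_sub, sub_mul,
        mul_assoc] <;> abel
  have h2 : ∀ g, vf δ * η g - sg (!g.isRight) • (η g * vf δ) = lc ρ ((l * a) g) := by
    intro g
    rw [hηl, lc_br hc1 _ (ζ := fun g' => lc ρ (a g')), lc_vecMul]
    · rfl
    · intro g' hg'
      rw [← hδa g' (Or.inl (hl g g' hg').2), ← vf_gn hδ g', hMo g (hl g g' hg').1,
        hMe g' (hl g g' hg').2]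
      rfl
  have h3 : ∀ g, vf η * δ g - sg (!g.isRight) • (δ g * vf η) = lc ρ ((a * l) g) := by
    intro g
    by_cases hg : Me g ∨ Mo g
    · rw [hδa g hg, lc_br hc2 _ (ζ := fun g' => lc ρ (l g')), lc_vecMul]
      · rfl
      · intro g' hg'
        rw [← hηl g', ← vf_gn hη g', hMe g (ha g g' hg').1, hMo g' (ha g g' hg').2]
        rfl
    · have e : (a * l) g = 0 := by
        change a g ᵥ* l = 0
        rw [ha0 g fun h => hg (Or.inl h), zero_vecMul]
      rw [e, lc_zero]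
      have b1 := vf_br (δ := η) (s := true) (Pg := fun g' _ => Mo g') (P' := fun _ => False)
        (fun g' => by
          by_cases h : Mo g'
          · exact words_le (fun μ hμ => ⟨h, hμ⟩) (hη g')
          · rw [hηl, hl0 g' h, lc_zero]
            exact zero_mem _)
        (words_and (hδ0 g hg) (hδ g))
        (fun g' μ ν h h' => h (has_add.2 (Or.inr (has_single.2 h'))))
      have b2 := words_false b1 fun _ h => h
      rwa [Bool.true_and, Bool.xor_true] at b2
  have h4 : ∀ b : E ⊕ O → R, N * lc ρ b = lc ρ b * N + lc ρ (b ᵥ* (l * a + a * l)) := by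
    intro b
    have b1 := lc_br hNq 1 (b := b) (ζ := fun g => lc ρ ((l * a + a * l) g)) fun g _ => by
      rw [h1, h2, h3, ← lc_add]
      rfl
    rw [lc_vecMul, one_smul] at b1
    rw [← b1]
    abel
  have h5 : ∀ b : E ⊕ O → R, ρ Δ * lc ρ b = lc ρ b * ρ Δ := fun b => by
    rw [lc, mul_sum, sum_mul]
    refine sum_congr rfl fun g _ => ?_
    rw [← mul_assoc, ← map_mul, mul_comm Δ, map_mul, mul_assoc, hρ, mul_assoc]
  have haa : a * a = 0 := by
    ext g g''
    rw [mul_apply]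
    refine sum_eq_zero fun g' _ => ?_
    by_cases h : a g g' = 0
    · rw [h, zero_mul]
    · rw [ha0 g' fun h' => hd g' h' (ha g g' h).2, Pi.zero_apply, mul_zero]
  have hea : (diagonal fun g => if Me g then (1 : R) else 0) * a = a := by
    ext g g'
    rw [diagonal_mul]
    split_ifs with h
    · rw [one_mul]
    · rw [zero_mul, ha0 g h, Pi.zero_apply]
  have hP : l * a * (l * a + a * l) = Δ • (l * a) := by
    rw [mul_add, Matrix.mul_assoc l a (a * l), ← Matrix.mul_assoc a a, haa, Matrix.zero_mul,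
      Matrix.mul_zero, add_zero, Matrix.mul_assoc, ← Matrix.mul_assoc a, hal, Matrix.smul_mul,
      hea, Matrix.mul_smul]
  have hrow : ∀ g, Pi.single g Δ ᵥ* (l * a + a * l) =
      Δ • (l * a) g + Δ • Pi.single g (if Me g then Δ else 0) := by
    intro g
    rw [single_vecMul, hal]
    funext g'
    simp only [Pi.smul_apply, row_apply, Matrix.add_apply, Matrix.smul_apply, diagonal_apply,
      Pi.add_apply, Pi.single_apply, smul_eq_mul, mul_add]
    by_cases e : g = g'
    · subst e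
      split_ifs <;> simp
    · rw [if_neg e, if_neg (Ne.symm e)]
      simp
  have hgn : ∀ g (y : Sp E O), ρ Δ (gn g y) = lc ρ (Pi.single g Δ) y := fun g y => by
    rw [lc_single, Module.End.mul_apply]
  have hMe1 : ∀ g, Me g → ∀ i, ∀ y ∈ eigU N (ρ Δ) i, ρ Δ (gn g y) ∈ eigU N (ρ Δ) (i + 1) := by
    intro g hg i y hy
    rw [hgn]
    refine eigU_map 1 ?_ (h5 _) i hy
    have e : (l * a) g = 0 := by
      change l g ᵥ* a = 0
      rw [hl0 g (hd g hg), zero_vecMul]
    rw [h4, hrow, if_pos hg, e, smul_zero, zero_add, lc_smul, Nat.cast_one, one_smul]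
  rw [← hN]
  refine eig_mono (by rw [hN, LinearMap.add_apply, Module.End.mul_apply, Module.End.mul_apply,
    vf_one, vf_one, map_zero, map_zero, add_zero]) (hNq Δ) (hρ Δ) (fun g i y hy => ?_)
    (fun g hg y hy => hMe1 g hg 0 y hy) hx
  by_cases hg : Me g
  · exact eigU_mono (Nat.le_succ i) (hMe1 g hg i y hy)
  · have e : lc ρ (Pi.single g Δ) = lc ρ ((l * a) g) + lc ρ (Pi.single g Δ - (l * a) g) := by
      rw [← lc_add, add_sub_cancel]
    have e' : (l * a) g ᵥ* (l * a + a * l) = Δ • (l * a) g := congrFun hP g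
    rw [hgn, e, LinearMap.add_apply]
    refine add_mem (eigU_mono (Nat.le_succ i) (eigU_map 1 ?_ (h5 _) i hy))
      (eigU_map 0 ?_ (h5 _) i hy)
    · rw [h4, e', lc_smul, Nat.cast_one, one_smul]
    · rw [h4, sub_vecMul, e', hrow, if_neg hg, Pi.single_zero, smul_zero, add_zero, sub_self,
        lc_zero, Nat.cast_zero, zero_smul]

end Pool.Agent.MP_8be872_ag.H62
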