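import Pool.Agent.MP_8be872_ag.H62.N4B
import Pool.Agent.MP_8be872_ag.H63.LocA

/-! Derivations that respect the reduced relations, and exactness of the linear part. -/

namespace Pool.Agent.MP_8be872_ag.H62

open Finset H38 H56 H63 MvPolynomial

section Pol

variable {E O : Type} [Fintype E] [Fintype O] [DecidableEq E] [DecidableEq O]

theorem mem_true (x : Sp E O) : x ∈ mono fun _ => True := by rw [mono_true]; trivial

theorem mul_pol (p q : MvPolynomial E ℂ) : mul p (pol q : Sp E O) = pol (p * q) := by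
  rw [← mul_one_eq, ← mul_one_eq, H63.mul_mul, Module.End.mul_apply]

theorem pol_inj {p q : MvPolynomial E ℂ} (h : (pol p : Sp E O) = pol q) : p = q := by
  simpa [pol] using congrFun h ∅

theorem sup_zero (A : E ⊕ O → Prop) : sup A 0 := fun _ h => absurd rfl h

/-- Polynomials in the generators satisfying `A`. -/
noncomputable def SA (A : E ⊕ O → Prop) : Subalgebra ℂ (MvPolynomial E ℂ) where
  carrier := {q | (pol q : Sp E O) ∈ mono (sup A)}
  mul_mem' {p q} hp hq := by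
    change (pol (p * q) : Sp E O) ∈ mono (sup A)
    rw [← mul_pol]
    exact words_apply_mem (mul_mem_words_of_pol hp) hq fun a b ha hb => sup_add.2 ⟨ha, hb⟩
  add_mem' {p q} hp hq := by
    change (pol (p + q) : Sp E O) ∈ mono (sup A)
    rw [pol, Pi.single_add]
    exact add_mem hp hq
  algebraMap_mem' s := by
    change (pol (C s) : Sp E O) ∈ mono (sup A)
    rw [← mul_one_eq, mul_C, Module.algebraMap_end_apply]
    exact Submodule.smul_mem _ _ (one_mem (sup_zero A))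

theorem X_mem_SA {A : E ⊕ O → Prop} {e : E} (h : A (.inl e)) : X e ∈ SA A := by
  change (pol (X e) : Sp E O) ∈ mono (sup A)
  rw [← mul_one_eq]
  exact gn_mem (.inl e) (one_mem (sup_zero A)) fun μ hμ => sup_add.2 ⟨hμ, sup_single.2 h⟩

theorem SA_mono {A A' : E ⊕ O → Prop} (h : ∀ g, A g → A' g) {q : MvPolynomial E ℂ}
    (hq : q ∈ SA A) : q ∈ SA A' :=
  mono_le (P := sup A) (fun _ hμ g hg => h g (hμ g hg)) hq

theorem eval_SA {A : E ⊕ O → Prop} {q : MvPolynomial E ℂ} (hq : q ∈ SA A) {y y' : E → ℂ}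
    (h : ∀ e, A (.inl e) → y e = y' e) : eval y q = eval y' q := by
  rw [eval_eq, eval_eq]
  refine sum_congr rfl fun m hm => congrArg _ (prod_congr rfl fun e he => ?_)
  rw [h e (pol_mem.1 hq m (mem_support_iff.1 hm) (.inl e) (Finsupp.mem_support_iff.1 he))]

theorem eval_has {K : E ⊕ O → Prop} {q : MvPolynomial E ℂ} (hq : (pol q : Sp E O) ∈ mono (has K))
    {y : E → ℂ} (h : ∀ e, K (.inl e) → y e = 0) : eval y q = 0 := by
  rw [eval_eq]
  refine sum_eq_zero fun m hm => ?_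
  obtain ⟨g, hg, hg'⟩ := pol_mem.1 hq m (mem_support_iff.1 hm)
  rcases g with e | o
  · rw [prod_eq_zero (Finsupp.mem_support_iff.2 hg') (by rw [h e hg]; exact zero_pow hg'), mul_zero]
  · exact absurd (by simp [ex]) hg'

theorem kill_SA (A : E ⊕ O → Prop) (q : MvPolynomial E ℂ) : kill (fun g => ¬ A g) q ∈ SA A := by
  change (pol _ : Sp E O) ∈ mono (sup A)
  rw [(kill_sub _ q).2]
  exact mono_le (fun μ hμ g hg => not_not.1 fun h => hμ ⟨g, h, hg⟩) (proj_mem _)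

theorem kill_eq {A K : E ⊕ O → Prop} (h : ∀ g, A g → ¬ K g) {q : MvPolynomial E ℂ}
    (hq : q ∈ SA A) : kill K q = q := by
  refine pol_inj (O := O) ?_
  rw [(kill_sub _ q).2]
  exact proj_eq_self (mono_le (P := sup A) (fun μ hμ ⟨g, h1, h2⟩ => h g (hμ g h2) h1) hq)

theorem cnt_sup {A M : E ⊕ O → Prop} (h : ∀ g, A g → ¬ M g) {μ : E ⊕ O → ℕ} (hμ : sup A μ) :
    cnt M μ = 0 :=
  not_not.1 fun h' => let ⟨g, h1, h2⟩ := cnt_ne_zero.1 h'; h g (hμ g h2) h1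

theorem ws_sup {A : E ⊕ O → Prop} {c : E ⊕ O → ℤ} (h : ∀ g, A g → c g = 0) {μ : E ⊕ O → ℕ}
    (hμ : sup A μ) : ws c μ = 0 :=
  sum_eq_zero fun g _ => by
    by_cases hg : μ g = 0
    · rw [hg, zero_smul]
    · rw [h g (hμ g hg), smul_zero]

theorem sum_proj {c : (E ⊕ O → ℕ) → ℕ} {N : ℕ} {x : Sp E O} (hx : x ∈ mono fun μ => c μ < N) :
    ∑ j ∈ range N, proj (fun μ => c μ = j) x = x := by
  funext S
  refine MvPolynomial.ext _ _ fun m => ?_
  rw [Finset.sum_apply, coeff_sum]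
  simp only [coeff_proj, sum_ite_eq, mem_range]
  split_ifs with h
  · rfl
  · exact (not_not.1 fun h' => h (mem_mono.1 hx S m h')).symm

end Pol

variable {E O J : Type} [Fintype E] [Fintype O] [Fintype J] [DecidableEq E] [DecidableEq O]
  [DecidableEq J] (Al K M E0 : Gn E O J → Prop) (j₀ : J) (F : MvPolynomial (E ⊕ J) ℂ) (k : ℕ)

/-- The cochains, without weights and parity. -/
def PW (μ : Gn E O J → ℕ) : Prop :=
  (sup (fun g => Al g ∨ g = tv j₀ ∨ g = ev j₀) μ ∧ μ (ev j₀) ≠ 0) ∧ (has K μ ∨ k ≤ cnt M μ)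

/-- The reduced relations. -/
noncomputable def BB : Submodule ℂ (Sp (E ⊕ J) (O ⊕ J)) :=
  rel (fun j => if j = j₀ then F else 0) ⊔ mono (has K)

/-- The coordinates of the chart. -/
def Ap (g : Gn E O J) : Prop := E0 g ∨ g = tv j₀

/-- Standing hypotheses. -/
structure Ctx : Prop where
  alT : ∀ j, ¬ Al (tv j)
  alE : ∀ j, ¬ Al (ev j)
  kAl : ∀ g, K g → Al g
  mAl : ∀ g, M g → Al g ∧ ¬ K g
  e0 : ∀ g, E0 g → Al g ∧ ¬ K g ∧ ¬ M g
  hF : F ∈ SA E0

/-- Admissible odd derivations. -/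
def Adm (δ : Gn E O J → Op E O J) : Prop :=
  ∀ g, δ g ∈ words fun ν => (Al g ∧ ¬ K g ∧ ¬ E0 g ∧ sup Al ν ∧
    cnt M (Pi.single g 1) ≤ cnt M ν) ∧ od ν = xor g.isRight true

variable {Al K M E0 j₀ F k} {δ : Gn E O J → Op E O J} {x : Sp (E ⊕ J) (O ⊕ J)}

theorem Adm.odd (h : Adm Al K M E0 δ) (g : Gn E O J) :
    δ g ∈ words fun ν => od ν = xor g.isRight true := words_le (fun _ h => h.2) (h g)

theorem Adm.comm (h : Adm Al K M E0 δ) (hT : ∀ j, ¬ Al (tv j)) {q : MvPolynomial (E ⊕ J) ℂ}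
    (hq : q ∈ SA fun g : Gn E O J => E0 g ∨ ∃ j, g = tv j) : vf δ * mul q = mul q * vf δ := by
  rw [vf_mul_comm_iff fun g => words_le (fun _ _ => trivial) (h g),
    vf_congr (δ' := fun _ => 0) (fun g hg => words_false (h g) fun μ hμ => ?_) hq]
  · simp [vf]
  · rcases hg with hg | ⟨j, rfl⟩
    · exact hμ.1.2.2.1 hg
    · exact hT j hμ.1.1

theorem Adm.comm' (h : Adm Al K M E0 δ) (hT : ∀ j, ¬ Al (tv j)) {q : MvPolynomial (E ⊕ J) ℂ}
    (hq : q ∈ SA (Ap E0 j₀)) : vf δ * mul q = mul q * vf δ :=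
  h.comm hT (SA_mono (fun _ hg => hg.imp_right fun e => ⟨j₀, e⟩) hq)

theorem Adm.memK (h : Adm Al K M E0 δ) (hx : x ∈ mono (has K)) : vf δ x ∈ mono (has K) :=
  vf_mem h hx fun _ _ _ h1 h2 => has_add.2 (Or.inr ((has_add.1 h1).resolve_right fun h3 =>
    h2.1.2.1 (has_single.1 h3)))

theorem Adm.memW (h : Adm Al K M E0 δ) (hE : ∀ j, ¬ Al (ev j))
    (hx : x ∈ mono (PW Al K M j₀ k)) : vf δ x ∈ mono (PW Al K M j₀ k) := by
  refine vf_mem h hx fun g μ ν h1 h2 => ⟨⟨sup_add.2 ⟨fun g' hg' => Or.inl (h2.1.2.2.2.1 g' hg'),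
    (sup_add.1 h1.1.1).1⟩, ?_⟩, h1.2.imp (fun h3 => ?_) fun h3 => ?_⟩
  · have h3 := h1.1.2
    rw [Pi.add_apply, Pi.single_eq_of_ne fun e : ev j₀ = g => hE j₀ (e ▸ h2.1.1), add_zero] at h3
    rw [Pi.add_apply]
    omega
  · exact has_add.2 (Or.inr ((has_add.1 h3).resolve_right fun h4 => h2.1.2.1 (has_single.1 h4)))
  · have := h2.1.2.2.2.2
    rw [cnt_add] at h3 ⊢
    omega

theorem Adm.memB (h : Adm Al K M E0 δ) (hc : Ctx Al K M E0 F) (hx : x ∈ BB K j₀ F) :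
    vf δ x ∈ BB K j₀ F := by
  obtain ⟨y, hy, z, hz, rfl⟩ := Submodule.mem_sup.1 hx
  rw [map_add]
  refine Submodule.add_mem_sup (vf_rel h.odd (fun j => words_false (h _) fun μ hμ => hc.alE j hμ.1.1)
    (fun j => ⟨0, zero_mem _, ?_⟩) hy) (h.memK hz)
  rw [zero_mul, sub_eq_zero]
  refine h.comm hc.alT (sub_mem (mul_mem ?_ (X_mem_SA (Or.inr ⟨j, rfl⟩))) (Subalgebra.one_mem _))
  split_ifs
  · exact SA_mono (fun _ => Or.inl) hc.hF
  · exact zero_mem _

theorem words_BB {P : (Gn E O J → ℕ) → Prop} {m : Op E O J} (hm : m ∈ words P)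
    (hx : x ∈ BB K j₀ F) : m x ∈ BB K j₀ F := by
  obtain ⟨y, hy, z, hz, rfl⟩ := Submodule.mem_sup.1 hx
  rw [map_add]
  exact Submodule.add_mem_sup (words_rel hm hy)
    (words_apply_mem hm hz fun _ _ _ hb => has_add.2 (Or.inr hb))

theorem words_PW {m : Op E O J} (hm : m ∈ words (sup fun g => Al g ∨ g = tv j₀))
    (hx : x ∈ mono (PW Al K M j₀ k)) : m x ∈ mono (PW Al K M j₀ k) := by
  refine words_apply_mem hm hx fun a b ha hb => ⟨⟨sup_add.2 ⟨fun g hg => (ha g hg).imp_right Or.inl,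
    hb.1.1⟩, ?_⟩, hb.2.imp (fun h => has_add.2 (Or.inr h)) fun h => ?_⟩
  · have := hb.1.2
    rw [Pi.add_apply]
    omega
  · rw [cnt_add]
    omega

theorem proj_BB (hc : Ctx Al K M E0 F) {P : (Gn E O J → ℕ) → Prop}
    (h : ∀ μ ν, sup E0 ν → (P (μ + ν + Pi.single (tv j₀) 1) ↔ P μ)) (hx : x ∈ BB K j₀ F) :
    proj P x ∈ BB K j₀ F := by
  obtain ⟨y, hy, z, hz, rfl⟩ := Submodule.mem_sup.1 hx
  rw [map_add]
  refine Submodule.add_mem_sup (proj_rel (A := univ) (fun j _ m hm μ _ => ?_)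
    (mono_le (fun _ _ j _ => mem_univ j) (mem_true y)) hy) (proj_mem_of hz)
  by_cases hj : j = j₀
  · rw [if_pos hj] at hm
    rw [hj]
    exact h μ _ (pol_mem.1 hc.hF m hm)
  · rw [if_neg hj] at hm
    exact absurd (coeff_zero m) hm

theorem PW_pat (hE : ∀ j, ¬ Al (ev j)) (hx : x ∈ mono (PW Al K M j₀ k)) : x ∈ mono (pat {j₀}) :=
  mono_le (fun μ hμ j hj => by
    rcases hμ.1.1 _ hj with h | h | h
    · exact absurd h (hE j)
    · cases h
    · exact mem_singleton.2 (Sum.inr_injective (Sum.inr_injective h))) hx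

theorem BB_iff (hc : Ctx Al K M E0 F) {f : J → MvPolynomial (E ⊕ J) ℂ}
    (hF : F = kill (O := O ⊕ J) K (f j₀)) (hx : x ∈ mono (pat {j₀})) :
    x ∈ rel f ⊔ mono (has K) ↔ x ∈ BB K j₀ F := by
  have hT : ∀ j, ¬ K (tv j) := fun j h => hc.alT j (hc.kAl _ h)
  have hE : ∀ j, ¬ K (ev j) := fun j h => hc.alE j (hc.kAl _ h)
  rw [BB, kill_rel hT hE, kill_rel hT hE]
  refine rel_congr (A := {j₀}) (fun j hj => ?_) (proj_mem_of hx)
  rw [mem_singleton.1 hj, if_pos rfl, ← hF, kill_eq (fun g hg => (hc.e0 g hg).2.1) hc.hF]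

theorem cech_iff (hE : ∀ j, ¬ Al (ev j)) {μ : Gn E O J → ℕ} : cech Al {j₀} ∅ μ ↔
    sup (fun g => Al g ∨ g = tv j₀ ∨ g = ev j₀) μ ∧ μ (ev j₀) ≠ 0 := by
  constructor
  · rintro ⟨h1, h2, -⟩
    refine ⟨fun g hg => ?_, h2 j₀ (mem_singleton_self _)⟩
    rcases h1 g hg with h | ⟨j, rfl, hj⟩ | ⟨j, hj, rfl⟩
    · exact Or.inl h
    · rcases h1 _ hj with h | ⟨j', h, -⟩ | ⟨j', hj', h⟩
      · exact absurd h (hE j)
      · cases h
      · rw [union_empty, mem_singleton] at hj'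
        rw [Sum.inr_injective (Sum.inr_injective h), hj']
        exact Or.inr (Or.inl rfl)
    · rw [union_empty, mem_singleton] at hj
      exact Or.inr (Or.inr (by rw [hj]))
  · rintro ⟨h1, h2⟩
    refine ⟨fun g hg => (h1 g hg).imp_right fun h => h.imp (fun e => ⟨j₀, e, h2⟩)
      fun e => ⟨j₀, by simp, e⟩, fun j hj => ?_, j₀, h2⟩
    rwa [mem_singleton.1 hj]

end Pool.Agent.MP_8be872_ag.H62
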