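import Pool.Agent.MP_8be872_ag.H62.N4C

/-! Exactness of the linear part of the differential. -/

namespace Pool.Agent.MP_8be872_ag.H62

open Finset H38 H56 H63 MvPolynomial

variable {E O J : Type} [Fintype E] [Fintype O] [Fintype J] [DecidableEq E] [DecidableEq O]
  [DecidableEq J] {Al K Me Mo E0 Θ : Gn E O J → Prop} {j₀ : J} {F : MvPolynomial (E ⊕ J) ℂ} {k : ℕ}
  {δ : Gn E O J → Op E O J} {r : Gn E O J → MvPolynomial (E ⊕ J) ℂ}
  {a : Gn E O J → Gn E O J → MvPolynomial (E ⊕ J) ℂ}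

theorem mul_words {A : Gn E O J → Prop} {q : MvPolynomial (E ⊕ J) ℂ} (hq : q ∈ SA A) :
    (mul q : Op E O J) ∈ words fun μ => sup A μ ∧ od μ = false :=
  mul_mem_words_of_pol (pol_mem.2 fun m hm => ⟨pol_mem.1 hq m hm, by simp [od, ex]⟩)

theorem has_Me (hMo : ∀ g, Mo g → g.isRight = true) {μ : Gn E O J → ℕ}
    (h1 : ∀ o, μ (.inr o) ≤ 1) (h2 : Fintype.card (O ⊕ J) < cnt (fun g => Me g ∨ Mo g) μ) :
    has Me μ := by
  by_contra h
  refine absurd h2 (not_lt.2 ?_)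
  rw [cnt, Fintype.sum_sum_type, sum_eq_zero, zero_add]
  · refine (sum_le_card_nsmul _ _ 1 fun o _ => ?_).trans (by simp)
    split_ifs
    · exact h1 o
    · exact Nat.zero_le _
  · intro e _
    split_ifs with he
    · rcases he with he | he
      · exact not_not.1 fun h' => h ⟨_, he, h'⟩
      · exact absurd (hMo _ he) (by simp)
    · rfl

theorem ex_lin (hc : Ctx Al K (fun g => Me g ∨ Mo g) E0 F)
    (hA : Adm Al K (fun g => Me g ∨ Mo g) E0 δ) (hsq : vf δ * vf δ = 0)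
    (hMe : ∀ g, Me g → g.isRight = false) (hMo : ∀ g, Mo g → g.isRight = true)
    (hδa : ∀ g, Me g ∨ Mo g → δ g = ∑ g', mul (a g g') * gn g')
    (hδ0 : ∀ g, ¬ (Me g ∨ Mo g) → δ g ∈ words fun μ => ¬ has Mo μ)
    (hΘ : ∀ g, Θ g → Al g ∧ g.isRight = true ∧ δ g = mul (r g)) (hr : ∀ g, r g ∈ SA E0)
    (ha : ∀ g g', a g g' ∈ SA E0 ∧ (a g g' ≠ 0 → Me g ∧ Mo g'))
    (hinj : ∀ y : E ⊕ J → ℂ, (∀ e, ¬ E0 (.inl e) → y e = 0) → (∀ g, Θ g → eval y (r g) = 0) →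
      eval y F ≠ 0 → ∀ ξ : Gn E O J → ℂ, (∀ g', ∑ g, ξ g * eval y (a g g') = 0) →
      ∀ g, Me g → ξ g = 0) (hk : Fintype.card (O ⊕ J) < k) :
    Ex (vf δ) (mono (PW Al K (fun g => Me g ∨ Mo g) j₀ k))
      (mono (PW Al K (fun g => Me g ∨ Mo g) j₀ k)) (BB K j₀ F) := by
  classical
  intro x₀ hx₀ hD₀
  obtain ⟨W, hW⟩ : ∃ W, W = mono (PW Al K (fun g => Me g ∨ Mo g) j₀ k) := ⟨_, rfl⟩
  obtain ⟨x, hxe⟩ : ∃ x, x = proj (fun μ => ¬ has K μ) x₀ := ⟨_, rfl⟩
  have hK : x₀ - x ∈ mono (has K) := hxe ▸ mono_le (fun _ h => not_not.1 h) (sub_proj_mem x₀)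
  have hx : x ∈ mono (PW Al K (fun g => Me g ∨ Mo g) j₀ k) := hxe ▸ proj_mem_of hx₀
  have hD : vf δ x ∈ BB K j₀ F := by
    have := sub_mem hD₀ (Submodule.mem_sup_right (hA.memK hK))
    rwa [map_sub, sub_sub_cancel] at this
  have hxM : x ∈ mono (has Me) := by
    have h1 : x ∈ mono fun μ => PW Al K (fun g => Me g ∨ Mo g) j₀ k μ ∧ ¬ has K μ := by
      rw [mono_and]
      exact ⟨hx, hxe ▸ proj_mem x₀⟩
    exact mono_le_odd (fun μ h2 h3 => has_Me hMo h2 (hk.trans_le (h3.1.2.resolve_left h3.2))) h1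
  suffices h : x ∈ W.map (vf δ) ⊔ BB K j₀ F by
    obtain ⟨_, ⟨y, hy, rfl⟩, z, hz, h⟩ := Submodule.mem_sup.1 h
    refine ⟨y, hW ▸ hy, ?_⟩
    have := add_mem (Submodule.mem_sup_right hK : x₀ - x ∈ BB K j₀ F) hz
    rwa [← h, show x₀ - (vf δ y + z) + z = x₀ - vf δ y by abel] at this
  have hAp : ∀ g, Ap E0 j₀ g → Al g ∨ g = tv j₀ := fun g h => h.imp_left fun h => (hc.e0 g h).1
  have mW : ∀ q ∈ SA (Ap E0 j₀), ∀ y ∈ W, mul q y ∈ W := fun q hq y hy =>
    hW ▸ words_PW (words_le (fun μ h g hg => hAp g (h.1 g hg)) (mul_words hq)) (hW ▸ hy)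
  have mD : ∀ q ∈ SA (Ap E0 j₀), ∀ y, vf δ (mul q y) = mul q (vf δ y) := fun q hq y =>
    LinearMap.congr_fun (hA.comm' hc.alT hq) y
  have mBd : ∀ q ∈ SA (Ap E0 j₀), ∀ y ∈ W.map (vf δ) ⊔ BB K j₀ F,
      mul q y ∈ W.map (vf δ) ⊔ BB K j₀ F := by
    intro q hq y hy
    obtain ⟨_, ⟨u, hu, rfl⟩, z, hz, rfl⟩ := Submodule.mem_sup.1 hy
    rw [map_add, ← mD q hq]
    exact Submodule.add_mem_sup ⟨_, mW q hq u hu, rfl⟩ (words_BB (mul_words hq) hz)
  let κ := kill (O := O ⊕ J) fun g => ¬ Ap E0 j₀ g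
  let I : Ideal (MvPolynomial (E ⊕ J) ℂ) :=
    { carrier := {p | mul (κ p) x ∈ W.map (vf δ) ⊔ BB K j₀ F}
      zero_mem' := by
        change mulA (κ 0) x ∈ W.map (vf δ) ⊔ BB K j₀ F
        rw [map_zero, map_zero, LinearMap.zero_apply]
        exact zero_mem _
      add_mem' := fun {p q} hp hq => by
        change mul (κ (p + q)) x ∈ W.map (vf δ) ⊔ BB K j₀ F
        rw [map_add, mul_add', LinearMap.add_apply]
        exact add_mem hp hq
      smul_mem' := fun q p hp => by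
        change mul (κ (q * p)) x ∈ W.map (vf δ) ⊔ BB K j₀ F
        rw [map_mul, H63.mul_mul, Module.End.mul_apply]
        exact mBd _ (kill_SA _ q) _ hp }
  have mI : ∀ q ∈ SA (Ap E0 j₀), mul q x ∈ W.map (vf δ) ⊔ BB K j₀ F → q ∈ I := fun q hq h => by
    change mul (kill (fun g => ¬ Ap E0 j₀ g) q) x ∈ W.map (vf δ) ⊔ BB K j₀ F
    rwa [kill_eq (fun _ h => not_not.2 h) hq]
  have hE0 : ∀ q ∈ SA E0, q ∈ SA (Ap E0 j₀) := fun q hq => SA_mono (fun _ => Or.inl) hq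
  obtain ⟨p, hp, hp'⟩ := nullst (fun e => Ap E0 j₀ (.inl e)) I fun y hy => by
    by_contra hn
    push Not at hn
    have h1 : ∀ g, Θ g → eval y (r g) = 0 := fun g hg => hn _ (mI _ (hE0 _ (hr g)) (by
      have e := LinearMap.congr_fun (vf_gn hA.odd g) x
      rw [(hΘ g hg).2.2, LinearMap.sub_apply, LinearMap.smul_apply, Module.End.mul_apply,
        Module.End.mul_apply] at e
      rw [← e, sub_eq_add_neg]
      refine Submodule.add_mem_sup ⟨_, hW ▸ words_PW (gn_mem_words (sup_single.2 (Or.inl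
        (hΘ g hg).1))) hx, rfl⟩ (neg_mem (Submodule.smul_mem _ _
          (words_BB (gn_mem_words (P := fun _ => True) trivial) hD)))))
    have h2 : eval y F ≠ 0 := by
      have b1 := rel_gen (f := fun j => if j = j₀ then F else 0) j₀
        (mono_le (fun _ h => h.1.2) hx)
      rw [if_pos rfl] at b1
      have b2 := hn _ (mI _ (sub_mem (mul_mem (hE0 _ hc.hF) (X_mem_SA (Or.inr rfl)))
        (Subalgebra.one_mem _)) (Submodule.mem_sup_right (Submodule.mem_sup_left b1)))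
      intro h
      rw [map_sub, map_mul, h, zero_mul, map_one, zero_sub] at b2
      exact one_ne_zero (neg_eq_zero.1 b2)
    have h3 : ∀ q ∈ SA E0, eval (fun e => if E0 (.inl e) then y e else 0) q = eval y q :=
      fun q hq => eval_SA hq fun e he => if_pos he
    let φ : SA E0 →ₐ[ℂ] ℂ := (aeval y).comp (SA E0).val
    have hφ : ∀ q : SA E0, φ q = eval y q.1 := fun q =>
      congrFun (congrArg DFunLike.coe (coe_aeval_eq_eval y)) q.1
    let ρ : SA E0 →+* Op E O J := (mulA.comp (SA E0).val).toRingHom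
    have hρ : ∀ q, ρ q = mul q.1 := fun _ => rfl
    let a' : Matrix (Gn E O J) (Gn E O J) (SA E0) := fun g g' => ⟨a g g', (ha g g').1⟩
    have ha' : ∀ g g', a' g g' ≠ 0 → Me g ∧ Mo g' := fun g g' h =>
      (ha g g').2 fun h' => h (Subtype.ext h')
    obtain ⟨Δ, l, hΔ, hl, hal⟩ := left_inv φ a' ha' fun ξ hξ =>
      hinj _ (fun e he => if_neg he) (fun g hg => by rw [h3 _ (hr g), h1 g hg])
        (by rwa [h3 _ hc.hF]) ξ fun g' =>
          (sum_congr rfl fun g _ => by rw [h3 _ (ha g g').1, hφ]).trans (hξ g')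
    have hη : Adm Al K (fun g => Me g ∨ Mo g) E0 fun g => lc ρ (l g) := fun g => by
      refine sum_mem fun g' _ => ?_
      by_cases h : l g g' = 0
      · rw [h, map_zero, zero_mul]
        exact zero_mem _
      obtain ⟨b1, b2⟩ := hl g g' h
      refine mul_mem_words (mul_words (l g g').2)
        (gn_mem_words (P := fun ν => ν = Pi.single g' 1) rfl) ?_
      rintro μ _ ⟨c1, c2⟩ rfl
      refine ⟨⟨(hc.mAl g (Or.inr b1)).1, (hc.mAl g (Or.inr b1)).2,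
        fun h => (hc.e0 g h).2.2 (Or.inr b1), sup_add.2 ⟨fun g hg => (hc.e0 g (c1 g hg)).1,
          sup_single.2 (hc.mAl g' (Or.inl b2)).1⟩, ?_⟩, ?_⟩
      · rw [cnt_add, cnt_single, cnt_single, if_pos (Or.inr b1), if_pos (Or.inl b2)]
        omega
      · rw [od_add, od_single, c2, hMo g b1, hMe g' b2]
        rfl
    have hc1 : ∀ q, vf δ * ρ q = ρ q * vf δ := fun q => hA.comm' (j₀ := j₀) hc.alT (hE0 _ q.2)
    have hc2 : ∀ q, vf (fun g => lc ρ (l g)) * ρ q = ρ q * vf fun g => lc ρ (l g) := fun q =>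
      hη.comm' (j₀ := j₀) hc.alT (hE0 _ q.2)
    obtain ⟨n, hn1⟩ := lap (ρ := ρ) (fun q g => mul_comm_words _ (gn_mem_words (P := fun _ => True)
      trivial)) hMe hMo ha' hl hal hA.odd hη.odd hδa (fun _ => rfl) hδ0 hc1 hc2 hxM
    have hCy : ∀ y ∈ W ⊓ (BB K j₀ F).comap (vf δ), ρ Δ y ∈ W ⊓ (BB K j₀ F).comap (vf δ) :=
      fun y hy => ⟨mW _ (hE0 _ Δ.2) y hy.1, by
        change vf δ (mul Δ.1 y) ∈ BB K j₀ F
        rw [mD _ (hE0 _ Δ.2)]
        exact words_BB (mul_words Δ.2) hy.2⟩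
    have hxn : ∀ n : ℕ, (ρ Δ ^ n) x ∈ W ⊓ (BB K j₀ F).comap (vf δ) := fun n => by
      induction n with
      | zero => exact ⟨hW ▸ hx, hD⟩
      | succ n ih => rw [pow_succ', Module.End.mul_apply]; exact hCy _ ih
    obtain ⟨n', hn2⟩ := eig_bd (Cy := W ⊓ (BB K j₀ F).comap (vf δ))
      (Bd := W.map (vf δ) ⊔ BB K j₀ F) (by
        rw [add_mul, mul_add, mul_assoc, hc2, mul_assoc, hc1, ← mul_assoc, ← mul_assoc, hc1, hc2,
          mul_assoc, mul_assoc])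
      (fun y hy => ⟨hW ▸ add_mem (hA.memW hc.alE (hη.memW hc.alE (hW ▸ hy.1)))
        (hη.memW hc.alE (hA.memW hc.alE (hW ▸ hy.1))), by
          change vf δ (vf δ (vf _ y) + vf _ (vf δ y)) ∈ BB K j₀ F
          rw [map_add, ← Module.End.mul_apply, hsq, LinearMap.zero_apply, zero_add]
          exact hA.memB hc (hη.memB hc hy.2)⟩)
      (fun y hy => Submodule.add_mem_sup (Submodule.mem_map_of_mem (f := vf δ) (p := W)
        (hW ▸ hη.memW hc.alE (hW ▸ hy.1)))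
        (hη.memB hc hy.2)) hCy (fun y hy => mBd _ (hE0 _ Δ.2) y hy) (hxn n) hn1
    rw [← Module.End.mul_apply, ← pow_add, ← map_pow] at hn2
    have b3 := hn _ (mI _ (hE0 _ (Δ ^ (n' + n)).2) hn2)
    rw [← hφ, map_pow] at b3
    exact hΔ (eq_zero_of_pow_eq_zero b3)
  have h1 : κ (1 - p) = 0 := by
    refine (Ideal.span_le (I := RingHom.ker κ)).2 ?_ hp'
    rintro _ ⟨e, he, rfl⟩
    change kill _ (X e) = 0
    rw [kill, aeval_X, if_pos he]
  rw [map_sub, map_one, sub_eq_zero] at h1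
  have h2 : mul (κ p) x ∈ W.map (vf δ) ⊔ BB K j₀ F := hp
  rw [← h1] at h2
  have h3 : (mul 1 : Op E O J) = 1 := map_one mulA
  rwa [h3] at h2

end Pool.Agent.MP_8be872_ag.H62
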