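import Pool.Agent.MP_8be872_ag.H62.Sl2B

/-! Module Sl2. -/

namespace Pool.Agent.MP_8be872_ag.H62

open Finset H38 H56 H63 MvPolynomial
open scoped Matrix

variable {Q : Quiv} {w v D : Fin Q.n → ℕ} {lab : Bas Q D → Bas Q v × ℕ}
  {J : Type} [Fintype J] [DecidableEq J]

theorem res_sup {A : Ix Q w v D J ⊕ Ix Q w v D J → Prop} {y : Sp (Ix Q w v D J) (Ix Q w v D J)}
    (hy : y ∈ mono (sup A)) : resO lab y ∈ mono (sup A) := by
  classical
  refine mem_mono.2 fun S m hm => ?_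
  change coeff m (resS lab (y S)) ≠ 0 at hm
  rintro (e | o) h
  · have h1 : e ∈ (resS lab (y S)).vars :=
      (mem_vars_iff_mem_support e).2 ⟨m, mem_support_iff.2 hm, Finsupp.mem_support_iff.2 h⟩
    rw [resS, aeval_eq_bind₁] at h1
    obtain ⟨e', h2, h3⟩ := mem_vars_bind₁ _ _ h1
    have h4 : e = e' := by
      rcases e' with ⟨ε | _ | _, p, q⟩ | j
      · simpa using h3
      · simpa using h3
      · simp only at h3
        split_ifs at h3
        · simpa using h3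
        · simp at h3
      · simpa using h3
    obtain ⟨m', h5, h6⟩ := (mem_vars_iff_mem_support e').1 h2
    exact h4 ▸ mem_mono.1 hy S m' (mem_support_iff.1 h5) (.inl e') (Finsupp.mem_support_iff.1 h6)
  · have h1 : y S ≠ 0 := fun h' => hm (by rw [h', map_zero, coeff_zero])
    obtain ⟨m', h2⟩ := exists_coeff_ne_zero h1
    exact mem_mono.1 hy S m' h2 (.inr o) h

theorem res_rel {f : J → MvPolynomial (Ix Q w v D J) ℂ} {y : Sp (Ix Q w v D J) (Ix Q w v D J)}
    (hy : y ∈ rel f) : resO lab y ∈ rel fun j => resS lab (f j) := by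
  refine mem_rel.2 fun S => ?_
  have h := Ideal.mem_map_of_mem (resS (w := w) (J := J) lab) (mem_rel.1 hy S)
  rw [Ideal.map_span] at h
  refine Ideal.span_mono ?_ h
  rintro _ ⟨_, ⟨j, hj, rfl⟩, rfl⟩
  refine ⟨j, hj, ?_⟩
  rw [map_sub, map_mul, map_one]
  congr 2
  rw [resS, aeval_X]

open Classical in
theorem proj_pat (U : (J → ℕ) → Prop) (y : Sp (Ix Q w v D J) (Ix Q w v D J)) (S) :
    proj (fun μ => U fun j => μ (ev j)) y S =
      if U fun j => if (.inr j : Ix Q w v D J) ∈ S then 1 else 0 then y S else 0 := by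
  ext m
  rw [coeff_proj, apply_ite (coeff m), coeff_zero]
  rfl

omit [Fintype J] [DecidableEq J] in
theorem alG_gg (R : Nb Q w v D → Nb Q w v D → Prop) (k : Kd Q) (p q : Nb Q w v D) :
    AlG (J := J) R (gg k p q) ↔ shape R k p q := by
  cases k <;> rfl

theorem sl2 (h1 : Glob1Stmt) (h2 : Glob2Stmt) (h3 : Glob3Stmt) (_ : SemiStmt) : Sl2Stmt := by
  classical
  intro Q w v D J _ _ σ d lab Λ f f' φ φ' J₀ J₁ γ H p x hx hres
  have G2 := h2 Q w v D J
  have hG : Good (AlG radF) (wt bw φ) (dG radF) 0 f :=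
    ((h1 Q w v D J).1 radF (Or.inr rfl)).1 φ f fun j => (H.semi j).1
  obtain ⟨hI, hL⟩ := (h3 Q w v D J f φ).2 H.semi
  have hf' : ∀ j, (pol (f' j) : Sp (Ix Q w v D J) (Ix Q w v D J)) ∈ mono tfree := fun j =>
    mono_le (fun μ h j => of_not_not fun h' => (h.1 (tv j) h').1) (H.hom j)
  have one : ∀ (A : Finset J), ∀ x ∈ ZZ (AlG radF) (wt bw φ) J₀ J₁ γ p ⊓ InvT f,
      x ∈ (mono fun μ => (univ.filter fun j => μ (ev j) ≠ 0) = A) → resO lab x ∈ rel f' →
      x ∈ rel f := by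
    intro A x hx hxA hres
    have hx1 : x ∈ mono fun μ => (cech (AlG radF) J₀ J₁ μ ∧ ws (wt bw φ) μ = γ ∧ od μ = p) ∧
        ∀ j, j ∈ A ↔ μ (ev j) ≠ 0 := by
      rw [mono_and]
      exact ⟨hx.1, mono_le (fun μ h j => by rw [← h]; simp) hxA⟩
    by_cases hA : ¬ A ⊆ J₀ ∪ J₁
    · rw [eq_zero_of_mem_mono hx1 hx1 fun μ h _ => hA fun j hj => ?_]
      · exact zero_mem _
      · rcases h.1.1.1 _ ((h.2 j).1 hj) with h' | ⟨j', h', -⟩ | ⟨j', h', e⟩
        · exact absurd h' (hG.alE j)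
        · cases h'
        · rwa [Sum.inr_injective (Sum.inr_injective e)]
    rw [not_not] at hA
    have hxu : x ∈ mono fun μ => ∀ j ∈ A, μ (ev j) ≠ 0 := mono_le (fun μ h j => (h.2 j).1) hx1
    obtain ⟨F, hF⟩ : ∃ F, F = ∏ j ∈ A, f j := ⟨_, rfl⟩
    by_cases hF0 : F = 0
    · refine rel_unit hxu 1 ?_
      have e : (mul 0 : OpQ Q w v D J) = 0 := map_zero mulA
      rw [← hF, hF0, pow_one, e]
      exact zero_mem _
    obtain ⟨Pm, hPm⟩ : ∃ Pm : MvPolynomial (Ix Q w v D J) ℂ → Prop, ∀ g, Pm g ↔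
        (∃ ψ, (mul g : OpQ Q w v D J) ∈ words fun μ => sup (AlG radF) μ ∧ ws (wt bw φ) μ = ψ) ∧
        ∀ a b, offT a b → lie radF a b * mul g = mul g * lie (J := J) radF a b :=
      ⟨_, fun _ => Iff.rfl⟩
    have p1 : Pm 1 := by
      have e : (mul 1 : OpQ Q w v D J) = 1 := map_one mulA
      rw [hPm, e]
      exact ⟨⟨0, one_mem_words ⟨fun _ h => absurd rfl h, ws_zero _⟩⟩,
        fun a b _ => by rw [mul_one, one_mul]⟩
    have p2 : ∀ g g', Pm g → Pm g' → Pm (g * g') := by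
      intro g g' h h'
      rw [hPm] at h h' ⊢
      obtain ⟨⟨ψ, b1⟩, b2⟩ := h
      obtain ⟨⟨ψ', b1'⟩, b2'⟩ := h'
      rw [mul_mul]
      refine ⟨⟨ψ + ψ', mul_mem_words b1 b1' fun a b h h' => ⟨sup_add.2 ⟨h.1, h'.1⟩, ?_⟩⟩,
        fun a b h => ?_⟩
      · rw [ws_add, h.2, h'.2]
      · rw [← mul_assoc, b2 a b h, mul_assoc, b2' a b h, mul_assoc]
    have p3 : Pm F := by
      rw [hF]
      refine prod_induction _ _ p2 p1 fun j _ => (hPm _).2
        ⟨⟨_, words_le (fun _ h => h.1) (hG.f_mem j)⟩, fun a b h => ?_⟩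
      obtain ⟨δ, e1, -, e2⟩ := G2.val radF a b
      have e3 := (H.semi j).2.2 a b h
      rw [e1] at e3 ⊢
      exact (vf_mul_comm_iff (fun g => words_le (fun _ _ => trivial) (e2 g)) _).2 e3
    have p4 : ∀ N, Pm (F ^ N) := fun N => by
      induction N with
      | zero => rwa [pow_zero]
      | succ N ih => exact pow_succ F N ▸ p2 _ _ ih p3
    obtain ⟨Pt, hPt⟩ : ∃ Pt : Ix Q w v D J ⊕ Ix Q w v D J → Prop, ∀ g, Pt g ↔
        AlG radF g ∨ (∃ j, g = tv j) ∨ ∃ j ∈ A, g = ev j := ⟨_, fun _ => Iff.rfl⟩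
    obtain ⟨Pp, hPp⟩ : ∃ Pp : Ix Q w v D J ⊕ Ix Q w v D J → Prop, ∀ g, Pp g ↔
        AlG radF g ∨ ∃ j ∈ A, g = ev j := ⟨_, fun _ => Iff.rfl⟩
    have t1 : ∀ μ, sup (AlG radF) μ → sup Pt μ := fun μ h g hg => (hPt g).2 (Or.inl (h g hg))
    have t2 : ∀ μ, sup (AlG radF) μ → sup Pp μ := fun μ h g hg => (hPp g).2 (Or.inl (h g hg))
    have t3 : ∀ μ, sup Pt μ → pat A μ := fun μ h j hj => by
      rcases (hPt _).1 (h _ hj) with h' | ⟨j', h'⟩ | ⟨j', h', e⟩
      · exact absurd h' (hG.alE j)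
      · cases h'
      · rwa [Sum.inr_injective (Sum.inr_injective e)]
    have t4 : ∀ μ, sup Pp μ → sup Pt μ := fun μ h g hg =>
      (hPt g).2 (((hPp g).1 (h g hg)).imp_right Or.inr)
    have t5 : ∀ μ, sup Pp μ → tfree μ ∧ pat A μ := fun μ h => by
      refine ⟨fun j => of_not_not fun hj => ?_, t3 μ (t4 μ h)⟩
      rcases (hPp _).1 (h _ hj) with h' | ⟨j', -, h'⟩
      · exact hG.alT j h'
      · cases h'
    have hxt : x ∈ mono (sup Pt) := mono_le (fun μ h g hg => (hPt g).2 (by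
      rcases h.1.1.1 g hg with h' | ⟨j, h', -⟩ | ⟨j, -, h'⟩
      · exact Or.inl h'
      · exact Or.inr (Or.inl ⟨j, h'⟩)
      · exact Or.inr (Or.inr ⟨j, (h.2 j).2 (h' ▸ hg), h'⟩))) hx1
    obtain ⟨N, x', b1, b2, b3⟩ := clear_all (A := A) (x := x) hG.tfree (mono_le (fun μ h =>
      ⟨fun j => (h.2 j).1, fun j hj => by
        rcases h.1.1.1 _ hj with h' | ⟨j', h', e⟩ | ⟨j', -, h'⟩
        · exact absurd h' (hG.alT j)
        · rw [Sum.inr_injective (Sum.inl_injective h')]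
          exact (h.2 j').2 e
        · cases h'⟩) hx1)
    have b4 : x' ∈ mono (sup Pt) := b3 _
      (fun j _ u hu => words_apply_mem (hG.f_mem j) hu fun a b h h' => sup_add.2 ⟨t1 a h.1.1, h'⟩)
      (fun j _ u hu => gn_mem _ hu fun μ h =>
        sup_add.2 ⟨h, sup_single.2 ((hPt _).2 (Or.inr (Or.inl ⟨j, rfl⟩)))⟩)
      (fun j _ u hu => dr_mem _ hu fun μ h => (sup_add.1 h).1) hxt
    rw [← hF] at b2
    obtain ⟨⟨ψ, c1⟩, c2⟩ := (hPm _).1 (p4 N)
    obtain ⟨y, hy⟩ : ∃ y, y = proj (fun μ => ws (wt bw φ) μ = ψ + γ) x' := ⟨_, rfl⟩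
    have y1 : y ∈ mono (sup Pp) := by
      have b : x' ∈ mono fun μ => tfree μ ∧ sup Pt μ := by
        rw [mono_and]
        exact ⟨b1, b4⟩
      rw [hy]
      refine proj_mem_of (mono_le (fun μ h g hg => (hPp g).2 ?_) b)
      rcases (hPt g).1 (h.2 g hg) with h' | ⟨j, h'⟩ | h'
      · exact Or.inl h'
      · exact absurd (h.1 j) (h' ▸ hg)
      · exact Or.inr h'
    have y2 : y ∈ mono fun μ => ws (wt bw φ) μ = ψ + γ := by
      rw [hy]
      exact proj_mem _
    have y3 : y - mul (F ^ N) x ∈ rel f := by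
      have b := hG.proj_wt_rel (fun g => g = ψ + γ) b2
      rwa [map_sub, ← hy, proj_eq_self (words_apply_mem c1 hx1 fun a b h h' => by
        rw [ws_add, h.2, h'.1.2.1])] at b
    have y4 : ∀ a b, offT a b → lie radF a b y = 0 := by
      intro a b h
      have e1 : lie radF a b x ∈ rel f :=
        (Submodule.mem_iInf _).1 ((Submodule.mem_iInf _).1 ((Submodule.mem_iInf _).1 hx.2 a) b) h
      have e2 := add_mem ((hL a b h).2 _ y3) (words_rel c1 e1)
      rw [map_sub, ← Module.End.mul_apply (lie radF a b), c2 a b h, Module.End.mul_apply,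
        sub_add_cancel] at e2
      have e3 : lie radF a b y ∈ mono (sup Pp) := by
        obtain ⟨δ, e1, -, e2⟩ := G2.val radF a b
        rw [e1]
        refine vf_mem e2 y1 ?_
        rintro g μ ν h ⟨k, p, q, p', q', -, rfl, h', -⟩
        exact sup_add.2 ⟨sup_single.2 ((hPp _).2 (Or.inl ((alG_gg _ _ _ _).2 h'))), (sup_add.1 h).1⟩
      obtain ⟨M, hM⟩ := free_rel hG.tfree (mono_le t5 e3) e2
      rw [← hF] at hM
      funext S
      exact (mul_eq_zero.1 (congrFun hM S)).resolve_left (pow_ne_zero M hF0)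
    have rm : ∀ g (u : Sp (Ix Q w v D J) (Ix Q w v D J)),
        resO lab (mul g u) = mul (resS lab g) (resO lab u) := fun g u =>
      funext fun S => by
        change resS lab (g * u S) = resS lab g * resS lab (u S)
        rw [map_mul]
    have y5 : resO lab y ∈ rel f' := by
      have e1 := (rel_congr (f' := f') (fun j hj => (H.res j (hA hj)).1.symm) (mono_le t3
        (res_sup (sub_mem (mono_le t4 y1) (words_apply_mem c1 hxt fun a b h h' =>
          sup_add.2 ⟨t1 a h.1, h'⟩))))).1 (res_rel (lab := lab) y3)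
      have e2 := add_mem e1 (words_rel (mul_mem_true (resS lab (F ^ N))) hres)
      rwa [map_sub, rm, sub_add_cancel] at e2
    obtain ⟨M, hM⟩ := free_rel hf' (mono_le t5 (res_sup y1)) y5
    rw [prod_congr rfl fun j hj => (H.res j (hA hj)).1, ← map_prod, ← hF, ← map_pow, ← rm] at hM
    obtain ⟨⟨ψ', c3⟩, c4⟩ := (hPm _).1 (p4 M)
    have z1 : mul (F ^ M) y ∈ mono (sup Pp) :=
      words_apply_mem c3 y1 fun a b h h' => sup_add.2 ⟨t2 a h.1, h'⟩
    have z2 : mul (F ^ M) y ∈ mono fun μ => sup Pp μ ∧ ws (wt bw φ) μ = ψ' + (ψ + γ) := by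
      rw [mono_and]
      exact ⟨z1, words_apply_mem c3 y2 fun a b h h' => by rw [ws_add, h.2, h']⟩
    have z3 : mul (F ^ M) y = 0 := by
      refine slice_zero G2 H.isLab (mono_le (fun μ h p q h' => ?_) z1) hM (fun a b h => ?_)
        fun a h => ⟨_, G2.diag radF a (ψ' + (ψ + γ)) (h.trans_lt Nat.zero_lt_two) _
          (mono_le (fun μ h => ?_) z2)⟩
      · rcases (hPp _).1 (h _ h') with e | ⟨j, -, e⟩
        · exact e
        · cases e
      · rw [← Module.End.mul_apply, c4 a b h, Module.End.mul_apply, y4 a b h, map_zero]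
      · rw [← h.2]
        refine sum_congr rfl fun g _ => ?_
        by_cases hg : μ g = 0
        · rw [hg, zero_smul, zero_smul]
        beta_reduce
        rcases (hPp _).1 (h.1 g hg) with e | ⟨j, -, rfl⟩
        · rw [if_pos e]
          rcases g with (⟨τ, p, q⟩ | j) | (⟨τ, p, q⟩ | j)
          · rfl
          · cases e
          · rfl
          · cases e
        · rw [if_neg (hG.alE j)]
          rfl
    refine rel_unit hxu (M + N) ?_
    have b := neg_mem (words_rel c3 y3)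
    rwa [map_sub, z3, zero_sub, neg_neg, ← Module.End.mul_apply, ← mul_mul, ← pow_add, hF] at b
  obtain ⟨s, hs, -⟩ := exists_sum_proj (fun μ => univ.filter fun j => μ (ev j) ≠ 0) x
  rw [hs]
  refine sum_mem fun A _ => one A _ ⟨proj_mem_of hx.1,
    hI.pr (fun ν => (univ.filter fun j => ν j ≠ 0) = A) x hx.2⟩ (proj_mem x) (mem_rel.2 fun S => ?_)
  have e := proj_pat (fun ν => (univ.filter fun j => ν j ≠ 0) = A) x S
  change resS lab (proj _ x S) ∈ _
  rw [e]
  split_ifs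
  · exact mem_rel.1 hres S
  · rw [map_zero]
    exact zero_mem _

end Pool.Agent.MP_8be872_ag.H62
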