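import Pool.Agent.MP_8be872_ag.H63.SpecC
import Pool.Agent.MP_8be872_ag.H63.LocA

/-! An invariant vanishing on the slice vanishes. -/

namespace Pool.Agent.MP_8be872_ag.H62

open Finset H38 H56 H63 MvPolynomial
open scoped Matrix

theorem krull_euler {R M κ : Type} [CommRing R] [Algebra ℂ R] [IsDomain R] [IsNoetherianRing R]
    [AddCommGroup M] [Module R M] [Module.IsTorsionFree R M] [Module.Finite R M]
    (n : κ → R) {I : Ideal R} (hn : I = Ideal.span (Set.range n)) (hI : I ≠ ⊤) (X : M →+ M)
    (d : R → R) (hd : ∀ f y, X (f • y) = d f • y + f • X y)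
    (h0 : ∀ y, X y ∈ I • (⊤ : Submodule R M)) (h1 : ∀ k, d (n k) - n k ∈ I ^ 2) {z : M}
    (hz : X z ∈ I • Submodule.span R {z}) (hz1 : z ∈ I • (⊤ : Submodule R M)) : z = 0 := by
  have e : ∀ k : ℕ, I ^ (k + 1) • (⊤ : Submodule R M) = I • I ^ k • ⊤ := fun k => by
    rw [pow_succ', mul_smul]
  have key : ∀ k : ℕ, ∀ y ∈ I ^ k • (⊤ : Submodule R M),
      X y - (k : R) • y ∈ I ^ (k + 1) • (⊤ : Submodule R M) := by
    intro k
    induction k with
    | zero => intro y _; simpa using h0 y
    | succ k ih =>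
      have a : ∀ r ∈ Ideal.span (Set.range n), ∀ y ∈ I ^ k • (⊤ : Submodule R M),
          X (r • y) - ((k + 1 : ℕ) : R) • r • y ∈ I ^ (k + 1 + 1) • (⊤ : Submodule R M) := by
        intro r hr
        induction hr using Submodule.span_induction with
        | mem r hr =>
          obtain ⟨i, rfl⟩ := hr
          intro y hy
          have b1 : n i • (X y - (k : R) • y) ∈ I ^ (k + 1 + 1) • (⊤ : Submodule R M) := by
            rw [e]
            exact Submodule.smul_mem_smul (hn ▸ Ideal.subset_span ⟨i, rfl⟩) (ih y hy)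
          have b2 : (d (n i) - n i) • y ∈ I ^ (k + 1 + 1) • (⊤ : Submodule R M) := by
            rw [show k + 1 + 1 = 2 + k by ring, pow_add, mul_smul]
            exact Submodule.smul_mem_smul (h1 i) hy
          have b3 : X (n i • y) - ((k + 1 : ℕ) : R) • n i • y =
              n i • (X y - (k : R) • y) + (d (n i) - n i) • y := by
            rw [hd]
            push_cast
            module
          rw [b3]
          exact add_mem b1 b2
        | zero => intro y _; simp
        | add r s _ _ hr hs =>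
          intro y hy
          have b := add_mem (hr y hy) (hs y hy)
          rwa [sub_add_sub_comm, ← map_add, ← smul_add, ← add_smul] at b
        | smul r s _ hs =>
          intro y hy
          rw [smul_eq_mul, mul_comm r s, mul_smul]
          exact hs _ (Submodule.smul_mem _ r hy)
      intro y hy
      rw [e] at hy
      refine Submodule.smul_induction_on hy (fun r hr y hy => a r (hn ▸ hr) y hy) fun y y' b b' => ?_
      have c := add_mem b b'
      rwa [sub_add_sub_comm, ← map_add, ← smul_add] at c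
  have all : ∀ k : ℕ, z ∈ I ^ (k + 1) • (⊤ : Submodule R M) := by
    intro k
    induction k with
    | zero => simpa using hz1
    | succ k ih =>
      have b1 : X z ∈ I ^ (k + 1 + 1) • (⊤ : Submodule R M) := by
        rw [e]
        exact Submodule.smul_mono le_rfl ((Submodule.span_singleton_le_iff_mem _ _).2 ih) hz
      have b2 := Submodule.smul_mem _ (algebraMap ℂ R ((k + 1 : ℕ) : ℂ)⁻¹) (sub_mem b1 (key _ z ih))
      rwa [sub_sub_cancel, smul_smul, ← map_natCast (algebraMap ℂ R), ← map_mul,
        inv_mul_cancel₀ (Nat.cast_ne_zero.2 k.succ_ne_zero), map_one, one_smul] at b2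
  have h := I.iInf_pow_smul_eq_bot_of_isTorsionFree (M := M) hI
  rw [← Submodule.mem_bot R, ← h, Submodule.mem_iInf]
  rintro (_ | k)
  · simp
  · exact all k

theorem tele {A : Type} [Ring A] (a b α n c : A) (K : ℕ) (hK : b ^ K = 0) (h : b * a * b = b)
    (hn : n = b * (α - a)) (hc : c = ∑ i ∈ range K, b ^ i * n * α ^ i) :
    b * (α * c - c * α) - n = n * c := by
  have h1 : b * a * c = c := by
    rw [hc, mul_sum]
    refine sum_congr rfl fun i _ => ?_
    rw [hn, ← mul_assoc (b ^ i) b, ← pow_succ, pow_succ', ← mul_assoc, ← mul_assoc, ← mul_assoc, h]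
  have h2 : c - b * c * α = n := by
    have e := sum_range_sub' (fun i => b ^ i * n * α ^ i) K
    rw [pow_zero, pow_zero, hK, zero_mul, zero_mul, sub_zero, one_mul, mul_one] at e
    rw [← e, sum_sub_distrib, hc, mul_sum, sum_mul]
    refine congrArg _ (sum_congr rfl fun i _ => ?_)
    rw [pow_succ', pow_succ]
    simp only [mul_assoc]
  have h3 : n * c = b * α * c - c := by rw [hn, mul_sub, sub_mul, h1]
  rw [h3, ← h2, mul_sub]
  simp only [mul_assoc]
  abel

variable {Q : Quiv} {w v D : Fin Q.n → ℕ} {d : Bas Q v → ℕ} {lab : Bas Q D → Bas Q v × ℕ}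

theorem hp_inj (hl : IsLab d lab) {p q : Nb Q w v D} {u} (h : hp lab p = some u)
    (h' : hp lab q = some u) : p = q := by
  rcases p with τ | a | b <;> rcases q with τ' | a' | b' <;>
    simp only [hp, Option.some.injEq, reduceCtorEq] at h h'
  · have e := h.trans h'.symm
    rw [Prod.mk.injEq] at e
    rw [hl.inj (Prod.ext e.1 (by omega))]
  · have e := h.trans h'.symm
    simp at e
  · have e := h.trans h'.symm
    simp at e
  · have e := h.trans h'.symm
    rw [Prod.mk.injEq] at e
    rw [e.1]

theorem exists_pre (hl : IsLab d lab) (τ : Bas Q D) :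
    ∃ p : Nb Q w v D, hp lab p = some (lab τ) := by
  have h := hl.lt τ
  rcases e : lab τ with ⟨a, _ | k⟩
  · exact ⟨.inr (.inl a), rfl⟩
  · rw [e] at h
    obtain ⟨τ', h'⟩ := hl.surj a k (by simp only at h; omega)
    exact ⟨.inl τ', by simp [hp, h']⟩

theorem al0_ne {p q : Nb Q w v D} (h : al0 lab p q ≠ 0) :
    ∃ τ, q = .inl τ ∧ hp lab p = some (lab τ) := by
  rcases q with τ | q
  · exact ⟨τ, rfl, of_not_not fun h' => h (if_neg h')⟩
  · exact absurd rfl h

theorem al0_shape (hl : IsLab d lab) {p q : Nb Q w v D} (h : al0 lab p q ≠ 0) :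
    shape rad ka p q := by
  obtain ⟨τ, rfl, h'⟩ := al0_ne h
  refine ⟨⟨?_, ?_, Nat.zero_lt_two⟩, rfl⟩
  · rcases p with τ' | a | b <;> simp only [hp, Option.some.injEq, reduceCtorEq] at h'
    · exact (hl.vert τ').symm.trans ((congrArg (·.1.1) h').trans (hl.vert τ))
    · exact (congrArg (·.1.1) h').trans (hl.vert τ)
  · rcases p with τ' | a | b
    · exact Nat.zero_lt_two
    · exact Nat.one_lt_two
    · cases h'

section Row

variable {R : Type} [CommRing R] [Algebra ℂ R] {M : Matrix (Nb Q w v D) (Nb Q w v D) R}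

theorem row_inl (hl : IsLab d lab) {p : Nb Q w v D} {τ : Bas Q D} (h : hp lab p = some (lab τ))
    (q : Nb Q w v D) :
    (((al0 (w := w) lab).map (algebraMap ℂ R))ᵀ * M : Matrix _ _ _) (.inl τ) q = M p q := by
  rw [Matrix.mul_apply, sum_eq_single p]
  · simp [al0, h]
  · intro p' _ h'
    have e : ¬ hp lab p' = some (lab τ) := fun e => h' (hp_inj hl e h)
    simp [al0, e]
  · exact fun h' => absurd (mem_univ p) h'

theorem row_inr (s : Bas Q v ⊕ Bas Q w) (q : Nb Q w v D) :
    (((al0 (w := w) lab).map (algebraMap ℂ R))ᵀ * M : Matrix _ _ _) (.inr s) q = 0 := by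
  simp [Matrix.mul_apply, al0]

theorem bab (hl : IsLab d lab) : ((al0 (w := w) lab).map (algebraMap ℂ R))ᵀ *
    (al0 lab).map (algebraMap ℂ R) * ((al0 lab).map (algebraMap ℂ R))ᵀ =
      ((al0 lab).map (algebraMap ℂ R))ᵀ := by
  ext p q
  rw [Matrix.mul_assoc]
  rcases p with τ | s
  · obtain ⟨p, h⟩ := exists_pre (w := w) hl τ
    rw [row_inl hl h, Matrix.mul_apply, sum_eq_single (.inl τ)]
    · simp [al0, h]
    · intro p' _ h'
      have e : al0 lab p p' = 0 := of_not_not fun e => by
        obtain ⟨τ', rfl, e'⟩ := al0_ne e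
        exact h' (by rw [hl.inj (Option.some.inj (e'.symm.trans h))])
      simp [e]
    · exact fun h' => absurd (mem_univ _) h'
  · rw [row_inr]
    simp [al0]

theorem b_nil (hl : IsLab d lab) :
    ∃ K : ℕ, ((al0 (w := w) lab).map (algebraMap ℂ R))ᵀ ^ K = 0 := by
  have h : ∀ (i : ℕ) (p q : Nb Q w v D), (∀ τ, p = .inl τ → (lab τ).2 < i) →
      (((al0 (w := w) lab).map (algebraMap ℂ R))ᵀ ^ (i + 1)) p q = 0 := by
    intro i
    induction i with
    | zero =>
      rintro (τ | s) q h
      · exact absurd (h τ rfl) (Nat.not_lt_zero _)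
      · rw [pow_succ', row_inr]
    | succ i ih =>
      rintro (τ | s) q h
      · obtain ⟨p, h'⟩ := exists_pre (w := w) hl τ
        rw [pow_succ', row_inl hl h']
        refine ih p q ?_
        rintro τ' rfl
        have e := congrArg Prod.snd (Option.some.inj h')
        have := h τ rfl
        simp only at e
        omega
      · rw [pow_succ', row_inr]
  refine ⟨univ.sup (fun τ => (lab τ).2) + 1 + 1, ?_⟩
  ext p q
  exact h _ p q fun τ _ => Nat.lt_succ_of_le (le_sup (f := fun τ => (lab τ).2) (mem_univ τ))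

end Row

end Pool.Agent.MP_8be872_ag.H62
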