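import Pool.Agent.MP_8be872_ag.H62.Sl2A

/-! The Euler field of the slice. -/

namespace Pool.Agent.MP_8be872_ag.H62

open Finset H38 H56 H63 MvPolynomial
open scoped Matrix

theorem vf_leib {E O : Type} [Fintype E] [Fintype O] [DecidableEq E] [DecidableEq O]
    {δ : E ⊕ O → Module.End ℂ (Sp E O)} (hδ : ∀ g, δ g ∈ words fun _ => True)
    {f f' : MvPolynomial E ℂ} (h : vf δ (pol f) = pol f') (y : Sp E O) :
    vf δ (f • y) = f' • y + f • vf δ y := by
  have h1 : vf δ * mul f - mul f * vf δ - mul f' ∈ words fun _ : E ⊕ O → ℕ => True := by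
    rw [vf_mul hδ]
    exact sub_mem (sum_mem fun e _ => mul_mem_words (mul_mem_true _) (hδ _) fun _ _ _ _ => trivial)
      (mul_mem_true _)
  have h2 := LinearMap.congr_fun (words_ext h1 (by
    rw [LinearMap.sub_apply, LinearMap.sub_apply, Module.End.mul_apply, Module.End.mul_apply,
      mul_one_eq, mul_one_eq, vf_one, map_zero, sub_zero, h, sub_self])) y
  rw [LinearMap.sub_apply, LinearMap.sub_apply, LinearMap.zero_apply, sub_sub, sub_eq_zero,
    add_comm] at h2
  exact h2

section Mat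

variable {N R : Type} [Fintype N] [DecidableEq N] [CommRing R]

omit [DecidableEq N] in
theorem ent_mul {V : N → N → Prop} (hV : ∀ p q r, V p q → V q r → V p r) {A B : Matrix N N R}
    (hA : ∀ p q, A p q ≠ 0 → V p q) (hB : ∀ p q, B p q ≠ 0 → V p q) :
    ∀ p q, (A * B) p q ≠ 0 → V p q := by
  intro p q h
  rw [Matrix.mul_apply] at h
  obtain ⟨r, -, h⟩ := exists_ne_zero_of_sum_ne_zero h
  exact hV p r q (hA _ _ (left_ne_zero_of_mul h)) (hB _ _ (right_ne_zero_of_mul h))

theorem ent_pow {V : N → N → Prop} (hV : ∀ p q r, V p q → V q r → V p r) (h0 : ∀ p, V p p)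
    {A : Matrix N N R} (hA : ∀ p q, A p q ≠ 0 → V p q) (i : ℕ) :
    ∀ p q, (A ^ i) p q ≠ 0 → V p q := by
  induction i with
  | zero =>
    intro p q h
    rw [pow_zero] at h
    rw [not_not.1 fun h' => h (Matrix.one_apply_ne h')]
    exact h0 q
  | succ i ih =>
    rw [pow_succ]
    exact ent_mul hV ih hA

theorem sum_br (A C : Matrix N N R) (p q : N) :
    ∑ a, ∑ b, C a b * (A * Matrix.single a b 1 - Matrix.single a b 1 * A : Matrix N N R) p q =
      (A * C - C * A) p q := by
  conv_rhs => rw [Matrix.matrix_eq_sum_single C]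
  simp only [Matrix.mul_sum, Matrix.sum_mul, ← sum_sub_distrib, Matrix.sum_apply]
  refine sum_congr rfl fun a _ => sum_congr rfl fun b _ => ?_
  rw [show Matrix.single a b (C a b) = C a b • Matrix.single a b (1 : R) by simp,
    Matrix.mul_smul, Matrix.smul_mul, ← smul_sub, Matrix.smul_apply, smul_eq_mul]

end Mat

variable {Q : Quiv} {w v D : Fin Q.n → ℕ} {d : Bas Q v → ℕ} {lab : Bas Q D → Bas Q v × ℕ}
  {J : Type} [Fintype J] [DecidableEq J]

theorem slice_zero (G2 : Glob2At Q w v D J) (hl : IsLab d lab)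
    {z : Sp (Ix Q w v D J) (Ix Q w v D J)}
    (hz : z ∈ mono fun μ => ∀ p q, μ (gg ka p q) ≠ 0 → shape rad ka p q) (h0 : resO lab z = 0)
    (h1 : ∀ a b, offT a b → lie radF a b z = 0)
    (h2 : ∀ a, blk a = 0 → ∃ m : ℂ, lie radF a a z = m • z) : z = 0 := by
  classical
  obtain ⟨a, ha⟩ : ∃ a, a = (al0 (w := w) lab).map (algebraMap ℂ (MvPolynomial (Ix Q w v D J) ℂ)) :=
    ⟨_, rfl⟩
  obtain ⟨α, hα⟩ : ∃ α, α = Ypol (Q := Q) (w := w) (v := v) (D := D) (J := J) ka := ⟨_, rfl⟩
  obtain ⟨K, hK⟩ := b_nil (w := w) (R := MvPolynomial (Ix Q w v D J) ℂ) hl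
  have hb := bab (w := w) (R := MvPolynomial (Ix Q w v D J) ℂ) hl
  have r1 := fun M p τ => row_inl (w := w) (R := MvPolynomial (Ix Q w v D J) ℂ) (M := M) (p := p)
    (τ := τ) hl
  have r2 := fun M => row_inr (w := w) (lab := lab) (R := MvPolynomial (Ix Q w v D J) ℂ) (M := M)
  rw [← ha] at hK hb r1 r2
  obtain ⟨n, hn⟩ : ∃ n, n = aᵀ * (α - a) := ⟨_, rfl⟩
  obtain ⟨c, hc⟩ : ∃ c, c = ∑ i ∈ range K, aᵀ ^ i * n * α ^ i := ⟨_, rfl⟩
  have ht := tele a aᵀ α n c K hK hb hn hc
  obtain ⟨I, hI⟩ : ∃ I, I = Ideal.span (Set.range fun u : Nb Q w v D × Nb Q w v D => n u.1 u.2) :=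
    ⟨_, rfl⟩
  have nI : ∀ p q, n p q ∈ I := fun p q => hI ▸ Ideal.subset_span ⟨(p, q), rfl⟩
  have cI : ∀ p q, c p q ∈ I := fun p q => by
    rw [hc, Matrix.sum_apply]
    refine sum_mem fun i _ => ?_
    rw [Matrix.mul_apply]
    refine sum_mem fun r _ => I.mul_mem_right _ ?_
    rw [Matrix.mul_apply]
    exact sum_mem fun s _ => I.mul_mem_left _ (nI s r)
  have αe : ∀ p q, α p q = if shape rad ka p q then X (.inl (.inr true, p, q)) else 0 :=
    fun p q => by rw [hα]; rfl
  have ae : ∀ p q, a p q = C (al0 lab p q) := fun p q => by rw [ha]; rfl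
  have αs : ∀ p q, α p q ≠ 0 → shape rad ka p q := fun p q h =>
    of_not_not fun h' => h (by rw [αe, if_neg h'])
  have as : ∀ p q, a p q ≠ 0 → shape rad ka p q := fun p q h =>
    al0_shape hl fun h' => h (by rw [ae, h', map_zero])
  have ds : ∀ p q, (α - a) p q ≠ 0 → shape rad ka p q := fun p q h => of_not_not fun h' => h (by
    rw [Matrix.sub_apply, not_not.1 (mt (αs p q) h'), not_not.1 (mt (as p q) h'), sub_zero])
  have cs : ∀ p q, c p q ≠ 0 → vx p = vx q ∧ blk p = 0 ∧ blk q = 0 := by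
    intro p q h
    rw [hc, Matrix.sum_apply] at h
    obtain ⟨i, -, h⟩ := exists_ne_zero_of_sum_ne_zero h
    have v1 : ∀ p q r : Nb Q w v D, vx p = vx q → vx q = vx r → vx p = vx r := fun _ _ _ => Eq.trans
    have v2 : ∀ p q, aᵀ p q ≠ 0 → vx p = vx q := fun p q h => (as q p h).1.1.symm
    refine ⟨ent_mul v1 (ent_mul v1 (ent_pow v1 (fun _ => rfl) v2 i) ?_)
      (ent_pow v1 (fun _ => rfl) (fun p q h => (αs p q h).1.1) i) p q h, ?_, ?_⟩
    · rw [hn]
      exact ent_mul v1 v2 fun p q h => (ds p q h).1.1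
    · rcases p with τ | s
      · rfl
      · rw [hn, ← mul_assoc, ← pow_succ, pow_succ', mul_assoc, mul_assoc, r2] at h
        exact absurd rfl h
    · rcases i with _ | i
      · rw [pow_zero α, mul_one, hn, ← mul_assoc, Matrix.mul_apply] at h
        obtain ⟨r, -, h⟩ := exists_ne_zero_of_sum_ne_zero h
        exact (ds r q (right_ne_zero_of_mul h)).2
      · rw [pow_succ α, ← mul_assoc, Matrix.mul_apply] at h
        obtain ⟨r, -, h⟩ := exists_ne_zero_of_sum_ne_zero h
        exact (αs r q (right_ne_zero_of_mul h)).2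
  have bs : ∀ p q, blk p < 2 → ¬ shape rad ka p q → (α * c - c * α) p q = 0 := by
    intro p q hp h
    rw [Matrix.sub_apply, Matrix.mul_apply, Matrix.mul_apply, sum_eq_zero, sum_eq_zero, sub_zero]
    · refine fun r _ => of_not_not fun h' => h ?_
      have b1 := cs p r (left_ne_zero_of_mul h')
      have b2 := αs r q (right_ne_zero_of_mul h')
      exact ⟨⟨b1.1.trans b2.1.1, hp, b2.1.2.2⟩, b2.2⟩
    · refine fun r _ => of_not_not fun h' => h ?_
      have b1 := αs p r (left_ne_zero_of_mul h')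
      have b2 := cs r q (right_ne_zero_of_mul h')
      exact ⟨⟨b1.1.1.trans b2.1, hp, b2.2.2.trans_lt Nat.zero_lt_two⟩, b2.2.2⟩
  have hpb : ∀ (p : Nb Q w v D) u, hp lab p = some u → blk p < 2 := by
    rintro (τ | a | b) u h
    · exact Nat.zero_lt_two
    · exact Nat.one_lt_two
    · cases h
  have ntop : ∀ (p : Nb Q w v D) τ, hp lab p = some (lab τ) → ¬ top lab p := fun p τ h h' =>
    one_ne_zero ((if_pos h).symm.trans (h' (.inl τ)))
  have rX : ∀ p q : Nb Q w v D, resS (J := J) lab (X (.inl (.inr true, p, q))) =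
      if top lab p then X (.inl (.inr true, p, q)) else C (al0 lab p q) := fun p q => by
    rw [resS, aeval_X]
  choose dd hd1 hd2 using G2.der
  refine krull_euler _ hI ?_ (∑ p, ∑ q, mul (c p q) * lie (J := J) rad p q).toAddMonoidHom
    (fun f => ∑ p, ∑ q, c p q * dd p q f) (fun f y => ?_) (fun y => ?_) ?_ ?_ ?_
  · intro h
    have b : I ≤ RingHom.ker (resS (w := w) (J := J) lab) := by
      rw [hI, Ideal.span_le]
      rintro _ ⟨⟨τ | s, q⟩, rfl⟩
      · obtain ⟨p, h'⟩ := exists_pre (w := w) hl τ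
        change resS lab (n (.inl τ) q) = 0
        rw [hn, r1 _ p τ h', Matrix.sub_apply, map_sub, αe, ae, algHom_C, algebraMap_eq]
        split_ifs with hs
        · rw [rX, if_neg (ntop p τ h'), sub_self]
        · rw [not_not.1 (mt (al0_shape hl) hs), map_zero, map_zero, sub_zero]
      · change resS lab (n (.inr s) q) = 0
        rw [hn, r2, map_zero]
    have b' := b (h ▸ Submodule.mem_top : (1 : MvPolynomial (Ix Q w v D J) ℂ) ∈ I)
    rw [RingHom.mem_ker, map_one] at b'
    exact one_ne_zero b'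
  · simp only [LinearMap.toAddMonoidHom_coe, LinearMap.sum_apply, Module.End.mul_apply, sum_smul,
      smul_sum, ← sum_add_distrib]
    refine sum_congr rfl fun p _ => sum_congr rfl fun q _ => ?_
    obtain ⟨δ, e1, -, e2⟩ := G2.val rad p q
    have e3 := hd1 p q f
    rw [e1] at e3 ⊢
    rw [vf_leib (fun g => words_le (fun _ _ => trivial) (e2 g)) e3]
    change c p q • (dd p q f • y + f • vf δ y) = _ + f • c p q • vf δ y
    rw [smul_add, smul_smul, smul_comm]
  · simp only [LinearMap.toAddMonoidHom_coe, LinearMap.sum_apply, Module.End.mul_apply]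
    exact sum_mem fun p _ => sum_mem fun q _ => Submodule.smul_mem_smul (cI p q) Submodule.mem_top
  · rintro ⟨p, q⟩
    have b : ∑ p', ∑ q', c p' q' * dd p' q' (n p q) = (aᵀ * (α * c - c * α)) p q := by
      rcases p with τ | s
      · obtain ⟨p, h'⟩ := exists_pre (w := w) hl τ
        have b1 : ∀ p' q', dd p' q' (n (.inl τ) q) = if shape rad ka p q then
            (α * Matrix.single p' q' 1 - Matrix.single p' q' 1 * α : Matrix _ _ _) p q else 0 := by
          intro p' q'
          have b2 := congrFun (congrFun (hd2 p' q' ka rfl) p) q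
          rw [hn, r1 _ p τ h', Matrix.sub_apply, map_sub, ae, ← algebraMap_eq,
            Derivation.map_algebraMap, sub_zero, hα]
          exact b2
        rw [r1 _ p τ h']
        simp only [b1]
        split_ifs with hs
        · exact sum_br α c p q
        · simp [bs p q (hpb p _ h') hs]
      · rw [r2, hn, r2]
        simp
    change ∑ p', ∑ q', c p' q' * dd p' q' (n p q) - n p q ∈ I ^ 2
    rw [b, ← Matrix.sub_apply, ht, Matrix.mul_apply, pow_two]
    exact sum_mem fun r _ => Ideal.mul_mem_mul (nI p r) (cI r q)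
  · simp only [LinearMap.toAddMonoidHom_coe, LinearMap.sum_apply, Module.End.mul_apply]
    refine sum_mem fun p _ => sum_mem fun q _ => ?_
    by_cases h : c p q = 0
    · have e : mul (c p q) (lie rad p q z) = c p q • lie rad p q z := rfl
      rw [e, h, zero_smul]
      exact zero_mem _
    obtain ⟨b1, b2, b3⟩ := cs p q h
    rw [← G2.radT p q b2 b3]
    refine Submodule.smul_mem_smul (cI p q) ?_
    by_cases h' : p = q
    · obtain ⟨m, hm⟩ := h2 p b2
      rw [← h', hm]
      exact Submodule.smul_of_tower_mem _ m (Submodule.mem_span_singleton_self z)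
    · rw [h1 p q ⟨h', b1, b2, b3⟩]
      exact zero_mem _
  · rw [← univ_sum_single z]
    refine sum_mem fun S _ => ?_
    have e : (Pi.single S (z S) : Sp (Ix Q w v D J) (Ix Q w v D J)) = z S • Pi.single S 1 := by
      rw [← Pi.single_smul', smul_eq_mul, mul_one]
    rw [e]
    refine Submodule.smul_mem_smul (Ideal.Quotient.eq_zero_iff_mem.1 ?_) Submodule.mem_top
    have b : Ideal.Quotient.mk I (z S) =
        (Ideal.Quotient.mk I).comp (resS (w := w) (J := J) lab : _ →+* _) (z S) := by
      refine hom_congr_vars (RingHom.ext fun r => by simp) (fun e he _ => ?_) rfl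
      obtain ⟨m, hm, he⟩ := (mem_vars_iff_mem_support e).1 he
      change _ = Ideal.Quotient.mk I (resS lab (X e))
      rcases e with ⟨ε | _ | _, p, q⟩ | j
      · rw [resS, aeval_X]
      · rw [resS, aeval_X]
      · rw [rX]
        split_ifs with h
        · rfl
        · have hs := mem_mono.1 hz S m (mem_support_iff.1 hm) p q (Finsupp.mem_support_iff.1 he)
          obtain ⟨q', h'⟩ := not_forall.1 h
          obtain ⟨τ, -, h'⟩ := al0_ne h'
          have b1 := nI (.inl τ) q
          rw [hn, r1 _ p τ h', Matrix.sub_apply, αe, if_pos hs, ae] at b1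
          exact Ideal.Quotient.eq.2 b1
      · rw [resS, aeval_X]
    have b' : resS lab (z S) = 0 := congrFun h0 S
    rw [b]
    change Ideal.Quotient.mk I (resS lab (z S)) = 0
    rw [b', map_zero]

end Pool.Agent.MP_8be872_ag.H62
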